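import Mathlib

/-! Robust form of Mann's theorem for density profiles: the statement. -/

set_option autoImplicit false

namespace Pool.Agent.Lib.MP_629a14_nt.Mp

open Finset

/-- The convolution of the indicator functions of the centred arcs of lengths `a`, `b` of the circle
of length one, at a point of absolute value `x ≤ 1 / 2` (the same as `Kp.trap`). -/
noncomputable def tr (a b x : ℝ) : ℝ := min (min a b) (max (max 0 (a + b - 1)) ((a + b) / 2 - x))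

/-- The popularity of the cell `k` and the point `x`. -/
noncomputable def Gk (K : ℕ) (al be : ℕ → ℝ) (k : ℕ) (x : ℝ) : ℝ :=
  1 / (K : ℝ) * (∑ i ∈ range (k + 1), tr (al i) (be (k - i)) x +
    ∑ i ∈ range k, tr (al i) (be (k - 1 - i)) x)

/-- Robust form of Mann's theorem for profiles. -/
def RM : Prop := ∀ a b : ℝ, 0 < a → a ≤ 1 → 0 < b → b ≤ 1 → ∀ ε : ℝ, 0 < ε →
  ∃ τ δ : ℝ, 0 < τ ∧ 0 < δ ∧ ∀ (K : ℕ) (al be : ℕ → ℝ), 1 ≤ K →
    (∀ i, 0 ≤ al i ∧ al i ≤ 1) → (∀ i, 0 ≤ be i ∧ be i ≤ 1) →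
    (∀ j : ℕ, j ≤ K → a * j - δ * K ≤ ∑ i ∈ range j, al i) →
    (∀ j : ℕ, j ≤ K → b * j - δ * K ≤ ∑ i ∈ range j, be i) →
    (min 1 (a + b) - ε) * K ≤
      ∑ k ∈ range K, 2 * ∫ x in (0 : ℝ)..(1 / 2), min 1 (Gk K al be k x / τ)

end Pool.Agent.Lib.MP_629a14_nt.Mp
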