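import Pool.Agent.Lib.MP_629a14_nt.Mp.Defs

/-! From the truncated mean to the number of the integers with many representations. -/

set_option autoImplicit false

namespace Pool.Agent.Lib.MP_629a14_nt.Kp.R.Mp

open Finset Filter Topology Pool.Agent.Lib.MP_629a14_nt Pool.Agent.Lib.MP_629a14_nt.Rob
open Pool.Agent.Lib.MP_629a14_nt.Mp (tr Gk RM)

/-- For even `n`: `sing n = 2 C₂ ∏_{p ∣ n, p > 2} (p-1)/(p-2) ≥ c n/φ(n)`. -/
private theorem Cnt_sing_low : ∃ c : ℝ, 0 < c ∧ ∀ n : ℕ, 1 ≤ n → Even n → c * ((n : ℝ) / n.totient) ≤ En.sing n := by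
  refine ⟨En.tw, En.tw_pos, fun n hn he => ?_⟩
  rw [Rob.SigLow.ratio_eq n hn]
  unfold En.sing
  have h2 : 2 ∈ n.primeFactors := by
    rw [Nat.mem_primeFactors_of_ne_zero (by omega)]
    exact ⟨Nat.prime_two, he.two_dvd⟩
  have h3 : n.primeFactors.filter (fun p => 2 < p) = n.primeFactors.erase 2 := by
    ext p
    rw [mem_filter, mem_erase]
    constructor
    · rintro ⟨hp, h⟩
      exact ⟨by omega, hp⟩
    · rintro ⟨h, hp⟩
      have := (Nat.prime_of_mem_primeFactors hp).two_le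
      exact ⟨hp, by omega⟩
  rw [h3, ← mul_prod_erase _ _ h2]
  have h4 : ∏ p ∈ n.primeFactors.erase 2, ((p : ℝ) / ((p : ℝ) - 1)) ≤
      ∏ p ∈ n.primeFactors.erase 2, (((p : ℝ) - 1) / ((p : ℝ) - 2)) := by
    refine prod_le_prod (fun p hp => ?_) fun p hp => ?_
    · have := (Nat.prime_of_mem_primeFactors (mem_erase.1 hp).2).two_le
      have h2p : (2 : ℝ) ≤ p := by exact_mod_cast this
      exact div_nonneg (by linarith) (by linarith)
    · have h5 := (Nat.prime_of_mem_primeFactors (mem_erase.1 hp).2).two_le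
      have h6 := (mem_erase.1 hp).1
      have h2p : (3 : ℝ) ≤ p := by exact_mod_cast (by omega : 3 ≤ p)
      rw [div_le_div_iff₀ (by linarith) (by linarith)]
      nlinarith
  have h5 := En.tw_pos
  calc En.tw * (((2 : ℕ) : ℝ) / (((2 : ℕ) : ℝ) - 1) * ∏ p ∈ n.primeFactors.erase 2, ((p : ℝ) / ((p : ℝ) - 1)))
      = 2 * En.tw * ∏ p ∈ n.primeFactors.erase 2, ((p : ℝ) / ((p : ℝ) - 1)) := by
        push_cast; ring
    _ ≤ _ := by gcongr

/-- The main factor of `HL n` is at least `c₁ n / φ(n)`: `n / φ(n) = prod p / (p - 1)` and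
`p (p - 2) / (p - 1) ^ 2` has a positive infinite product (compare Ml/TFin and Lx/FinB, Col). -/
theorem HL_ge : ∃ c₁ : ℝ, 0 < c₁ ∧ ∀ n : ℕ, 2 ≤ n → Even n → c₁ * size n ≤ En.HL n := by
  obtain ⟨c, hc, h⟩ := Cnt_sing_low
  refine ⟨c, hc, fun n hn he => ?_⟩
  have h1 := h n (by omega) he
  have h2 : c * size n = c * ((n : ℝ) / n.totient) * (n / (Real.log n) ^ 2) := by
    rw [size, mul_assoc, div_mul_div_comm, sq]
  rw [h2, En.HL]
  exact mul_le_mul_of_nonneg_right h1 (by positivity)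

/-- `min y t ≤ κ + t` times the indicator function of `κ ≤ y`. -/
theorem cnt_ge (S : Finset ℕ) (h : ℕ → ℝ) (κ t X : ℝ) (hκ : 0 ≤ κ) (ht : 0 < t)
    (hX : X ≤ ∑ n ∈ S, min (h n) t) :
    (X - κ * S.card) / t ≤ ((S.filter (fun n => κ ≤ h n)).card : ℝ) := by
  have h1 : ∀ n ∈ S, min (h n) t ≤ κ + t * (if κ ≤ h n then (1 : ℝ) else 0) := by
    intro n _
    split_ifs with h2
    · have := min_le_right (h n) t
      linarith
    · have := min_le_left (h n) t
      linarith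
  have h2 := Finset.sum_le_sum h1
  rw [Finset.sum_add_distrib, Finset.sum_const, ← Finset.mul_sum, Finset.sum_boole,
    nsmul_eq_mul] at h2
  rw [div_le_iff₀ ht]
  linarith

end Pool.Agent.Lib.MP_629a14_nt.Kp.R.Mp
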