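import Pool.Agent.Lib.MP_629a14_nt.Mp.Pair
import Pool.Agent.Lib.MP_629a14_nt.Kr.AvB

/-! The truncated mean is concave: reduction to the pairs of classes. -/

set_option autoImplicit false

namespace Pool.Agent.Lib.MP_629a14_nt.Kp.R.Mp

open Finset Filter Topology Pool.Agent.Lib.MP_629a14_nt Pool.Agent.Lib.MP_629a14_nt.Rob
open Pool.Agent.Lib.MP_629a14_nt.Mp (tr Gk RM)

private theorem Conc_av {W K N n : ℕ} {a b : ℕ → ℕ → ℝ} (x : ℝ) :
    Av W K N a b (fun _ _ _ u v => trap u v x) n =
      (∑ r ∈ adm W n, Fp K N (fun k => a k r) (fun k => b k ((n + W - r) % W)) n x) /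
        (adm W n).card := by
  rw [Av_eq, sum_product, sum_comm, sum_div]
  refine sum_congr rfl fun r _ => ?_
  unfold Fp
  rw [sum_div, sum_div]
  refine sum_congr rfl fun y _ => ?_
  simp only
  rw [div_div, one_div, div_eq_inv_mul]

private theorem Conc_fp_nonneg {K N n : ℕ} {al be : ℕ → ℝ} (hal : ∀ k, 0 ≤ al k ∧ al k ≤ 1)
    (hbe : ∀ k, 0 ≤ be k ∧ be k ≤ 1) (x : ℝ) : 0 ≤ Fp K N al be n x := by
  unfold Fp
  exact div_nonneg (sum_nonneg fun y _ =>
    (trap_mem (hal _).1 (hal _).2 (hbe _).1 (hbe _).2).1) (Nat.cast_nonneg _)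

/-- `Av W K N a b (trap) n x` is the mean over `r ∈ adm W n` of
`Fp K N (fun k => a k r) (fun k => b k ((n + W - r) % W)) n x`, all terms are nonnegative, and
`y ↦ min y τ` is concave. -/
theorem rt_ge {W K N n : ℕ} {a b : ℕ → ℕ → ℝ} (ha : ∀ k r, 0 ≤ a k r ∧ a k r ≤ 1)
    (hb : ∀ k r, 0 ≤ b k r ∧ b k r ≤ 1) (S : Finset ℕ) (hS : S ⊆ adm W n) (hS0 : 0 < S.card)
    {w τ : ℝ} (hw0 : 0 < w) (hw : w * (adm W n).card = S.card) (hτ : 0 < τ) :
    w * τ * ((∑ r ∈ S, Vp K N (fun k => a k r) (fun k => b k ((n + W - r) % W)) τ n) / S.card) ≤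
      RT W K N a b (w * τ) n := by
  have hS1 : (0 : ℝ) < S.card := by exact_mod_cast hS0
  have hA1 : (0 : ℝ) < (adm W n).card := by
    have h1 : S.card ≤ (adm W n).card := card_le_card hS
    exact_mod_cast lt_of_lt_of_le hS0 h1
  set F : ℕ → ℝ → ℝ := fun r x => Fp K N (fun k => a k r) (fun k => b k ((n + W - r) % W)) n x
    with hF
  have hF0 : ∀ r x, 0 ≤ F r x := fun r x =>
    Conc_fp_nonneg (fun k => ha k r) (fun k => hb k _) x
  have hFc : ∀ r, Continuous (F r) := fun r => Fp_cont K N _ _ n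
  have hRT : RT W K N a b (w * τ) n =
      2 * ∫ x in (0 : ℝ)..(1 / 2), min ((∑ r ∈ adm W n, F r x) / (adm W n).card) (w * τ) := by
    unfold RT lw
    congr 1
    refine intervalIntegral.integral_congr fun x _ => ?_
    simp only [Conc_av x, hF]
  have hL : w * τ * ((∑ r ∈ S, Vp K N (fun k => a k r) (fun k => b k ((n + W - r) % W)) τ n) /
      S.card) = 2 * ∫ x in (0 : ℝ)..(1 / 2), ∑ r ∈ S, w * τ / S.card * min 1 (F r x / τ) := by
    rw [intervalIntegral.integral_finsetSum]
    · rw [sum_div, mul_sum, mul_sum]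
      refine sum_congr rfl fun r _ => ?_
      rw [intervalIntegral.integral_const_mul]
      unfold Vp
      simp only [hF]
      ring
    · intro r _
      exact (continuous_const.mul (continuous_const.min
        ((hFc r).div_const _))).intervalIntegrable _ _
  rw [hRT, hL]
  refine mul_le_mul_of_nonneg_left ?_ (by norm_num)
  refine intervalIntegral.integral_mono_on (by norm_num) ?_ ?_ fun x _ => ?_
  · exact (continuous_finsetSum _ fun r _ => continuous_const.mul (continuous_const.min
        ((hFc r).div_const _))).intervalIntegrable _ _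
  · exact (((continuous_finsetSum _ fun r _ => hFc r).div_const _).min
      continuous_const).intervalIntegrable _ _
  · rw [← mul_sum]
    have e1 : w * τ / S.card * ∑ r ∈ S, min 1 (F r x / τ) =
        w / S.card * ∑ r ∈ S, min τ (F r x) := by
      have : ∀ r, min τ (F r x) = τ * min 1 (F r x / τ) := by
        intro r
        rw [mul_min_of_nonneg _ _ hτ.le, mul_one, mul_div_cancel₀ _ hτ.ne']
      simp only [this]
      rw [← mul_sum]
      ring
    rw [e1]
    have e2 : w / S.card = 1 / (adm W n).card := by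
      rw [← hw]
      field_simp
    refine le_min ?_ ?_
    · rw [e2, one_div, inv_mul_eq_div]
      refine div_le_div_of_nonneg_right ?_ hA1.le
      calc ∑ r ∈ S, min τ (F r x) ≤ ∑ r ∈ S, F r x := sum_le_sum fun r _ => min_le_right _ _
        _ ≤ ∑ r ∈ adm W n, F r x := sum_le_sum_of_subset_of_nonneg hS fun r _ _ => hF0 r x
    · calc w / S.card * ∑ r ∈ S, min τ (F r x) ≤ w / S.card * ∑ _r ∈ S, τ :=
            mul_le_mul_of_nonneg_left (sum_le_sum fun r _ => min_le_left _ _)
              (div_nonneg hw0.le hS1.le)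
        _ = w * τ := by
            rw [sum_const, nsmul_eq_mul]
            field_simp

end Pool.Agent.Lib.MP_629a14_nt.Kp.R.Mp
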