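import Pool.Agent.Lib.MP_629a14_nt.Kr.Fin
import Pool.Agent.Lib.MP_629a14_nt.Kp.PfMain
import Pool.Agent.Lib.MP_629a14_nt.Mp.RM

/-! Definitions for Mann's theorem for sets of primes. -/

set_option autoImplicit false

namespace Pool.Agent.Lib.MP_629a14_nt.Kp.R.Mp

open Finset Filter Topology Pool.Agent.Lib.MP_629a14_nt Pool.Agent.Lib.MP_629a14_nt.Rob
open Pool.Agent.Lib.MP_629a14_nt.Mp (tr Gk RM)

/-- The mean over the representations `n = y + z` for one pair of classes. -/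
noncomputable def Fp (K N : ℕ) (al be : ℕ → ℝ) (n : ℕ) (x : ℝ) : ℝ :=
  (∑ y ∈ Ico 1 n, trap (al (cell K N y)) (be (cell K N (n - y))) x) / n

/-- The mean of the truncated value of `Fp`. -/
noncomputable def Vp (K N : ℕ) (al be : ℕ → ℝ) (τ : ℝ) (n : ℕ) : ℝ :=
  2 * ∫ x in (0 : ℝ)..(1 / 2), min 1 (Fp K N al be n x / τ)

/-- The mean of the truncated value of `Gk`. -/
noncomputable def Vg (K : ℕ) (al be : ℕ → ℝ) (τ : ℝ) (k : ℕ) : ℝ :=
  2 * ∫ x in (0 : ℝ)..(1 / 2), min 1 (Gk K al be k x / τ)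

/-- The lower relative density of `A` in the reduced class `a` modulo `q` is at least `u (a % W)`, for
every multiple `q` of `W`. -/
def Low (A : Set ℕ) (W : ℕ) (u : ℕ → ℝ) : Prop :=
  ∀ q a : ℕ, 1 ≤ q → W ∣ q → a.Coprime q → ∀ ε : ℝ, 0 < ε → ∀ᶠ x : ℕ in atTop,
    (u (a % W) - ε) * (primesIn Set.univ q a x : ℝ) ≤ primesIn A q a x

/-- The comparison function `n^2 / (φ(n) log^2 n)`. -/
noncomputable def size (n : ℕ) : ℝ := (n : ℝ) ^ 2 / ((n.totient : ℝ) * Real.log n ^ 2)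

end Pool.Agent.Lib.MP_629a14_nt.Kp.R.Mp
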