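import Pool.Agent.Lib.MP_629a14_nt.Mp.Defs

/-! The extremal sets. -/

set_option autoImplicit false

namespace Pool.Agent.Lib.MP_629a14_nt.Kp.R.Mp

open Finset Filter Topology Pool.Agent.Lib.MP_629a14_nt Pool.Agent.Lib.MP_629a14_nt.Rob
open Pool.Agent.Lib.MP_629a14_nt.Mp (tr Gk RM)

private theorem up_of_lt {W N k : ℕ} (hW : 1 ≤ W) (hN : 1 ≤ N) {s : ℝ}
    (h : (W : ℝ) / N * (k : ℝ) < s) : (k : ℝ) ≤ s / W * N := by
  have hWr : (0 : ℝ) < W := by exact_mod_cast hW
  have hNr : (0 : ℝ) < N := by exact_mod_cast hN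
  have h1 : (k : ℝ) = (W : ℝ) / N * k * (N / W) := by field_simp
  rw [h1]
  have h2 : (W : ℝ) / N * k * (N / W) ≤ s * (N / W) :=
    mul_le_mul_of_nonneg_right h.le (by positivity)
  refine h2.trans (le_of_eq ?_)
  ring

/-- If `n = p + q` with `p`, `q` primes greater than `W` in `star W u`, `star W v` then `r = p % W` is
admissible (`adm_of_rep`), `u r`, `v ((c + W - r) % W)` are positive and the distance of `√2 n` from the
integers is less than `(u r + v ((c + W - r) % W)) / 2`. For `M < 1` apply `class_arc`, `rare` (Kp/PfClass). -/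
theorem up (W : ℕ) (hW : 1 ≤ W) (u v : ℕ → ℝ) (c : ℕ) (M : ℝ) (hM0 : 0 ≤ M)
    (hM : ∀ r ∈ adm W c, 0 < u r → 0 < v ((c + W - r) % W) →
      min 1 (u r + v ((c + W - r) % W)) ≤ M) (ε : ℝ) (hε : 0 < ε) :
    ∃ N₀ : ℕ, ∀ N : ℕ, N₀ ≤ N → (((Icc 1 N).filter (fun n => n ≡ c [MOD W] ∧
      0 < Sm.repsIn (star W u) (star W v) n)).card : ℝ) ≤ (M / W + ε) * N := by
  have hWr : (0 : ℝ) < W := by exact_mod_cast hW
  have hW1 : (1 : ℝ) ≤ W := by exact_mod_cast hW
  by_cases hM1 : 1 ≤ M
  · have h1 := (class_card hW c).eventually (gt_mem_nhds (show (1 : ℝ) < 1 + ε by linarith))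
    obtain ⟨N₀, h⟩ := eventually_atTop.1 h1
    refine ⟨max N₀ 1, fun N hN => ?_⟩
    have hN1 : 1 ≤ N := le_trans (le_max_right _ _) hN
    have hN0 : (0 : ℝ) < N := by exact_mod_cast hN1
    have h2 := up_of_lt hW hN1 (h N (le_trans (le_max_left _ _) hN))
    have h3 : ((Icc 1 N).filter (fun n => n ≡ c [MOD W] ∧
        0 < Sm.repsIn (star W u) (star W v) n)).card ≤
        ((Icc 1 N).filter (fun n => n ≡ c [MOD W])).card := by
      apply card_le_card
      intro n hn
      rw [mem_filter] at hn ⊢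
      exact ⟨hn.1, hn.2.1⟩
    have h3' : (((Icc 1 N).filter (fun n => n ≡ c [MOD W] ∧
        0 < Sm.repsIn (star W u) (star W v) n)).card : ℝ) ≤
        (((Icc 1 N).filter (fun n => n ≡ c [MOD W])).card : ℝ) := by exact_mod_cast h3
    refine h3'.trans (h2.trans ?_)
    apply mul_le_mul_of_nonneg_right _ hN0.le
    rw [add_div]
    have h4 : 1 / (W : ℝ) ≤ M / W := div_le_div_of_nonneg_right hM1 hWr.le
    have h5 : ε / (W : ℝ) ≤ ε := div_le_self hε.le hW1
    linarith
  · push Not at hM1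
    have ha1 := (class_arc hW c (Real.sqrt 2) irrational_sqrt_two 0 (M / 2) le_rfl (by linarith)
      (by linarith)).eventually (gt_mem_nhds (show (M / 2 - 0 : ℝ) < M / 2 + ε / 4 by linarith))
    have ha2 := (class_arc hW c (Real.sqrt 2) irrational_sqrt_two (1 - M / 2) 1 (by linarith)
      (by linarith) le_rfl).eventually
      (gt_mem_nhds (show (1 - (1 - M / 2) : ℝ) < M / 2 + ε / 4 by linarith))
    have ha3 := rare W (ε / 2) (by linarith)
    obtain ⟨N₀, h⟩ := eventually_atTop.1 (ha1.and (ha2.and ha3))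
    refine ⟨max N₀ 1, fun N hN => ?_⟩
    have hN1 : 1 ≤ N := le_trans (le_max_right _ _) hN
    have hN0 : (0 : ℝ) < N := by exact_mod_cast hN1
    obtain ⟨g1, g2, g3⟩ := h N (le_trans (le_max_left _ _) hN)
    have g1' := up_of_lt hW hN1 g1
    have g2' := up_of_lt hW hN1 g2
    have hsub : (Icc 1 N).filter (fun n => n ≡ c [MOD W] ∧
        0 < Sm.repsIn (star W u) (star W v) n) ⊆
        ((Icc 1 N).filter (fun m : ℕ => m ≡ c [MOD W] ∧
          0 ≤ Int.fract (Real.sqrt 2 * m) ∧ Int.fract (Real.sqrt 2 * m) < M / 2)) ∪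
        (((Icc 1 N).filter (fun m : ℕ => m ≡ c [MOD W] ∧
          1 - M / 2 ≤ Int.fract (Real.sqrt 2 * m) ∧ Int.fract (Real.sqrt 2 * m) < 1)) ∪
        ((Icc 1 N).filter (fun n => ∃ q ≤ W, q ≤ n ∧ (n - q).Prime))) := by
      intro n hn
      rw [mem_filter] at hn
      obtain ⟨hn0, hn1, hn2⟩ := hn
      rw [mem_union, mem_union, mem_filter, mem_filter, mem_filter]
      by_cases hr : ∃ q ≤ W, q ≤ n ∧ (n - q).Prime
      · right; right
        exact ⟨hn0, hr⟩
      classical
      unfold Sm.repsIn at hn2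
      rw [card_pos] at hn2
      obtain ⟨p, hp⟩ := hn2
      rw [mem_filter, mem_range] at hp
      obtain ⟨hp0, h1, h2, h3, h4⟩ := hp
      have hpn : p ≤ n := by omega
      have hpW : W < p := by
        by_contra h
        exact hr ⟨p, not_lt.1 h, hpn, h2⟩
      have hqW : W < n - p := by
        by_contra h
        refine hr ⟨n - p, not_lt.1 h, Nat.sub_le _ _, ?_⟩
        rw [Nat.sub_sub_self hpn]
        exact h1
      obtain ⟨h5, h6⟩ := adm_of_rep hW hn1 hpn h1 h2 hpW hqW
      have h7 : |Real.sqrt 2 * p - round (Real.sqrt 2 * p)| < u (p % W) / 2 := h3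
      have h8 : |Real.sqrt 2 * ((n - p : ℕ) : ℝ) - round (Real.sqrt 2 * ((n - p : ℕ) : ℝ))| <
        v ((n - p) % W) / 2 := h4
      have h9 : |Real.sqrt 2 * n - round (Real.sqrt 2 * n)| <
          (u (p % W) + v ((n - p) % W)) / 2 := by
        have e1 := round_le (Real.sqrt 2 * n)
          (round (Real.sqrt 2 * p) + round (Real.sqrt 2 * ((n - p : ℕ) : ℝ)))
        have e2 : Real.sqrt 2 * (n : ℝ) = Real.sqrt 2 * p + Real.sqrt 2 * ((n - p : ℕ) : ℝ) := by
          rw [Nat.cast_sub hpn]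
          ring
        push_cast at e1
        have e3 := abs_add_le (Real.sqrt 2 * p - round (Real.sqrt 2 * p))
          (Real.sqrt 2 * ((n - p : ℕ) : ℝ) - round (Real.sqrt 2 * ((n - p : ℕ) : ℝ)))
        have e4 : Real.sqrt 2 * (n : ℝ) - (round (Real.sqrt 2 * p) +
            round (Real.sqrt 2 * ((n - p : ℕ) : ℝ))) =
            (Real.sqrt 2 * p - round (Real.sqrt 2 * p)) +
            (Real.sqrt 2 * ((n - p : ℕ) : ℝ) - round (Real.sqrt 2 * ((n - p : ℕ) : ℝ))) := by
          rw [e2]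
          ring
        rw [e4] at e1
        linarith
      have hpos : 0 < u (p % W) := by
        have := abs_nonneg (Real.sqrt 2 * p - round (Real.sqrt 2 * p))
        linarith
      have hpos' : 0 < v ((n - p) % W) := by
        have := abs_nonneg
          (Real.sqrt 2 * ((n - p : ℕ) : ℝ) - round (Real.sqrt 2 * ((n - p : ℕ) : ℝ)))
        linarith
      have h10 := hM (p % W) h5 hpos (by rw [h6]; exact hpos')
      rw [h6] at h10
      have h11 : u (p % W) + v ((n - p) % W) ≤ M := by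
        rcases min_le_iff.1 h10 with h | h
        · linarith
        · exact h
      have h12 : |Real.sqrt 2 * n - round (Real.sqrt 2 * n)| < M / 2 := by linarith
      rw [abs_sub_round_eq_min, min_lt_iff] at h12
      rcases h12 with h | h
      · left
        exact ⟨hn0, hn1, Int.fract_nonneg _, h⟩
      · right; left
        exact ⟨hn0, hn1, by linarith, Int.fract_lt_one _⟩
    have hcard := (card_le_card hsub).trans ((card_union_le _ _).trans
      (Nat.add_le_add_left (card_union_le _ _) _))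
    have hcard' : (((Icc 1 N).filter (fun n => n ≡ c [MOD W] ∧
        0 < Sm.repsIn (star W u) (star W v) n)).card : ℝ) ≤
        (((Icc 1 N).filter (fun m : ℕ => m ≡ c [MOD W] ∧
          0 ≤ Int.fract (Real.sqrt 2 * m) ∧ Int.fract (Real.sqrt 2 * m) < M / 2)).card : ℝ) +
        ((((Icc 1 N).filter (fun m : ℕ => m ≡ c [MOD W] ∧
          1 - M / 2 ≤ Int.fract (Real.sqrt 2 * m) ∧ Int.fract (Real.sqrt 2 * m) < 1)).card : ℝ) +
        (((Icc 1 N).filter (fun n => ∃ q ≤ W, q ≤ n ∧ (n - q).Prime)).card : ℝ)) := by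
      exact_mod_cast hcard
    have h13 : (M / 2 + ε / 4) / W * N + ((M / 2 + ε / 4) / W * N + ε / 2 * N) ≤
        (M / W + ε) * N := by
      have h14 : (M / 2 + ε / 4) / W * N + ((M / 2 + ε / 4) / W * N + ε / 2 * N) =
          (M / W + (ε / 2 / W + ε / 2)) * N := by
        field_simp
        ring
      rw [h14]
      apply mul_le_mul_of_nonneg_right _ hN0.le
      have h15 : ε / 2 / (W : ℝ) ≤ ε / 2 := div_le_self (by linarith) hW1
      linarith
    linarith

end Pool.Agent.Lib.MP_629a14_nt.Kp.R.Mp
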