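import Pool.Agent.Lib.MP_629a14_nt.Mp.LowM
import Pool.Agent.Lib.MP_629a14_nt.Mp.UpS

/-! Mann's theorem for sets of primes, in terms of lower densities. -/

set_option autoImplicit false

namespace Pool.Agent.Lib.MP_629a14_nt.Kp.R.Mp

open Finset Filter Topology Pool.Agent.Lib.MP_629a14_nt Pool.Agent.Lib.MP_629a14_nt.Rob
open Pool.Agent.Lib.MP_629a14_nt.Mp (tr Gk RM)

/-- The number of the elements of `S` in `[1, N]`. -/
noncomputable def cnt (S : Set ℕ) (N : ℕ) : ℕ := Set.ncard {n : ℕ | 1 ≤ n ∧ n ≤ N ∧ n ∈ S}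

/-- Lower density of a set of positive integers. -/
noncomputable def ldens (S : Set ℕ) : ℝ := liminf (fun N : ℕ => (cnt S N : ℝ) / N) atTop

theorem cnt_eq (P : ℕ → Prop) [DecidablePred P] (N : ℕ) :
    cnt {n | P n} N = ((Icc 1 N).filter P).card := by
  unfold cnt
  rw [← Set.ncard_coe_finset]
  congr 1
  ext n
  simp only [Set.mem_ofPred_eq, coe_filter, mem_Icc]
  tauto

theorem cnt_mono {S T : Set ℕ} (h : ∀ n, 1 ≤ n → n ∈ S → n ∈ T) (N : ℕ) : cnt S N ≤ cnt T N := by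
  refine Set.ncard_le_ncard (fun n hn => ?_) ((Set.finite_Iic N).subset fun n hn => hn.2.1)
  exact ⟨hn.1, hn.2.1, h n hn.1 hn.2.2⟩

theorem cnt_le (S : Set ℕ) (N : ℕ) : cnt S N ≤ N := by
  classical
  have h := cnt_eq (fun n => n ∈ S) N
  have h1 : cnt {n | n ∈ S} N = cnt S N := rfl
  rw [← h1, h]
  refine (card_filter_le _ _).trans ?_
  rw [Nat.card_Icc]
  omega

theorem ldens_bdd (S : Set ℕ) : (atTop : Filter ℕ).IsBoundedUnder (· ≥ ·)
    (fun N : ℕ => (cnt S N : ℝ) / N) :=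
  isBoundedUnder_of ⟨0, fun N => div_nonneg (Nat.cast_nonneg _) (Nat.cast_nonneg _)⟩

theorem ldens_cobdd (S : Set ℕ) : (atTop : Filter ℕ).IsCoboundedUnder (· ≥ ·)
    (fun N : ℕ => (cnt S N : ℝ) / N) := by
  refine IsBoundedUnder.isCoboundedUnder_ge (isBoundedUnder_of ⟨1, fun N => ?_⟩)
  refine div_le_one_of_le₀ ?_ (Nat.cast_nonneg _)
  exact_mod_cast cnt_le S N

theorem ldens_ge {S : Set ℕ} {d : ℝ} (h : ∃ N₀ : ℕ, ∀ N : ℕ, N₀ ≤ N → d * N ≤ (cnt S N : ℝ)) :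
    d ≤ ldens S := by
  obtain ⟨N₀, h⟩ := h
  refine le_liminf_of_le (ldens_cobdd S) ?_
  filter_upwards [eventually_ge_atTop (max N₀ 1)] with N hN
  have hN1 : N₀ ≤ N := (le_max_left _ _).trans hN
  have hN2 : 1 ≤ N := (le_max_right _ _).trans hN
  rw [le_div_iff₀ (by exact_mod_cast hN2)]
  exact h N hN1

theorem ldens_le {S : Set ℕ} {d : ℝ} (h : ∀ ε : ℝ, 0 < ε → ∃ N₀ : ℕ, ∀ N : ℕ, N₀ ≤ N →
    (cnt S N : ℝ) ≤ (d + ε) * N) : ldens S ≤ d := by
  refine le_of_forall_pos_le_add fun ε hε => ?_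
  obtain ⟨N₀, h⟩ := h ε hε
  refine liminf_le_of_frequently_le ?_ (ldens_bdd S)
  refine Eventually.frequently ?_
  filter_upwards [eventually_ge_atTop (max N₀ 1)] with N hN
  have hN1 : N₀ ≤ N := (le_max_left _ _).trans hN
  have hN2 : 1 ≤ N := (le_max_right _ _).trans hN
  rw [div_le_iff₀ (by exact_mod_cast hN2)]
  exact h N hN1

theorem ldens_mono {S T : Set ℕ} (h : ∀ n, 1 ≤ n → n ∈ S → n ∈ T) : ldens S ≤ ldens T := by
  refine liminf_le_liminf ?_ (ldens_bdd S) (ldens_cobdd T)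
  refine Eventually.of_forall fun N => ?_
  exact div_le_div_of_nonneg_right (Nat.cast_le.2 (cnt_mono h N)) (Nat.cast_nonneg _)

theorem ldens_nonneg (S : Set ℕ) : 0 ≤ ldens S :=
  ldens_ge ⟨0, fun N _ => by rw [zero_mul]; exact Nat.cast_nonneg _⟩

/-- The `n ≡ c` which are sums of a prime of `A` and a prime of `B`. -/
def sums (A B : Set ℕ) (W c : ℕ) : Set ℕ := {n : ℕ | n ≡ c [MOD W] ∧ 0 < Sm.repsIn A B n}

/-- The `n ≡ c` with many representations. -/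
def rich (κ : ℝ) (A B : Set ℕ) (W c : ℕ) : Set ℕ :=
  {n : ℕ | n ≡ c [MOD W] ∧ κ * size n ≤ Sm.repsIn A B n}

/-- The largest `min 1 (u r + v (c - r))` over the admissible `r` with `u r`, `v (c - r)` positive. -/
noncomputable def best (W c : ℕ) (u v : ℕ → ℝ) : ℝ :=
  sSup {m : ℝ | ∃ r ∈ adm W c, 0 < u r ∧ 0 < v ((c + W - r) % W) ∧
    m = min 1 (u r + v ((c + W - r) % W))}

theorem best_fin (W c : ℕ) (u v : ℕ → ℝ) : {m : ℝ | ∃ r ∈ adm W c, 0 < u r ∧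
    0 < v ((c + W - r) % W) ∧ m = min 1 (u r + v ((c + W - r) % W))}.Finite := by
  refine ((adm W c).finite_toSet.image
    (fun r => min 1 (u r + v ((c + W - r) % W)))).subset ?_
  rintro m ⟨r, hr, -, -, rfl⟩
  exact ⟨r, hr, rfl⟩

theorem best_nonneg (W c : ℕ) (u v : ℕ → ℝ) : 0 ≤ best W c u v := by
  refine Real.sSup_nonneg ?_
  rintro m ⟨r, -, h1, h2, rfl⟩
  positivity

theorem le_best (W c : ℕ) (u v : ℕ → ℝ) {r : ℕ} (hr : r ∈ adm W c) (h1 : 0 < u r)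
    (h2 : 0 < v ((c + W - r) % W)) : min 1 (u r + v ((c + W - r) % W)) ≤ best W c u v :=
  le_csSup (best_fin W c u v).bddAbove ⟨r, hr, h1, h2, rfl⟩

/-- The uniform lower bound. -/
theorem rich_ge (hRM : RM) {W c : ℕ} {u v : ℕ → ℝ} (hW : 1 ≤ W) (h2 : 2 ∣ W) (hc : 2 ∣ c)
    (hu : ∀ r, r < W → r.Coprime W → 0 ≤ u r ∧ u r ≤ 1)
    (hv : ∀ r, r < W → r.Coprime W → 0 ≤ v r ∧ v r ≤ 1) (ε : ℝ) (hε : 0 < ε) :
    ∃ κ : ℝ, 0 < κ ∧ ∀ A B : Set ℕ, Low A W u → Low B W v →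
      best W c u v / W - ε ≤ ldens (rich κ A B W c) := by
  classical
  rcases Set.eq_empty_or_nonempty {m : ℝ | ∃ r ∈ adm W c, 0 < u r ∧
    0 < v ((c + W - r) % W) ∧ m = min 1 (u r + v ((c + W - r) % W))} with h0 | h0
  · refine ⟨1, one_pos, fun A B _ _ => ?_⟩
    unfold best
    rw [h0, Real.sSup_empty, zero_div]
    linarith [ldens_nonneg (rich 1 A B W c)]
  · obtain ⟨r, hr, hur, hvr, hm⟩ := h0.csSup_mem (best_fin W c u v)
    obtain ⟨κ, hκ, h⟩ := low hRM hW h2 hc hu hv hr hur hvr ε hε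
    refine ⟨κ, hκ, fun A B hA hB => ?_⟩
    unfold best
    rw [hm]
    refine ldens_ge ?_
    obtain ⟨N₀, h3⟩ := h A B hA hB
    refine ⟨N₀, fun N hN => ?_⟩
    unfold rich
    rw [cnt_eq]
    exact h3 N hN

theorem rich_anti {κ κ' : ℝ} (h : κ' ≤ κ) (A B : Set ℕ) (W c : ℕ) :
    rich κ A B W c ⊆ rich κ' A B W c := by
  rintro n ⟨h1, h2⟩
  refine ⟨h1, le_trans ?_ h2⟩
  refine mul_le_mul_of_nonneg_right h ?_
  unfold size
  positivity

theorem rich_sub {κ : ℝ} (hκ : 0 < κ) (A B : Set ℕ) {W c n : ℕ} (h2 : 2 ∣ W) (hc : 2 ∣ c)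
    (hn : 1 ≤ n) (h : n ∈ rich κ A B W c) : n ∈ sums A B W c := by
  obtain ⟨h1, h3⟩ := h
  refine ⟨h1, ?_⟩
  have hev : 2 ∣ n := (h1.of_dvd h2).dvd_iff (dvd_refl 2) |>.2 hc
  have hn2 : 2 ≤ n := by omega
  have h4 : 0 < size n := by
    unfold size
    have h5 : 0 < Real.log n := Real.log_pos (by exact_mod_cast hn2)
    have h6 : 0 < n.totient := Nat.totient_pos.2 (by omega)
    have h7 : (0 : ℝ) < n.totient := by exact_mod_cast h6
    have h8 : (0 : ℝ) < n := by exact_mod_cast (by omega : 0 < n)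
    positivity
  have h5 : (0 : ℝ) < Sm.repsIn A B n := lt_of_lt_of_le (mul_pos hκ h4) h3
  exact_mod_cast h5

theorem star_low {W : ℕ} {u : ℕ → ℝ} (hW : 1 ≤ W)
    (hu : ∀ r, r < W → r.Coprime W → 0 ≤ u r ∧ u r ≤ 1) : Low (star W u) W u := by
  intro q a hq hWq ha ε hε
  have h1 := star_profile hW hu q a hq hWq ha
  filter_upwards [h1.eventually (lt_mem_nhds (show u (a % W) - ε < u (a % W) by linarith))]
    with x hx
  rcases Nat.eq_zero_or_pos (primesIn Set.univ q a x) with h2 | h2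
  · rw [h2, Nat.cast_zero, mul_zero]
    exact Nat.cast_nonneg _
  · have h3 : (0 : ℝ) < primesIn Set.univ q a x := by exact_mod_cast h2
    rw [lt_div_iff₀ h3] at hx
    exact hx.le

theorem star_up {W c : ℕ} {u v : ℕ → ℝ} (hW : 1 ≤ W) :
    ldens (sums (star W u) (star W v) W c) ≤ best W c u v / W := by
  classical
  refine ldens_le fun ε hε => ?_
  obtain ⟨N₀, h⟩ := up W hW u v c (best W c u v) (best_nonneg W c u v)
    (fun r hr h1 h2 => le_best W c u v hr h1 h2) ε hε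
  refine ⟨N₀, fun N hN => ?_⟩
  unfold sums
  rw [cnt_eq]
  exact h N hN

end Pool.Agent.Lib.MP_629a14_nt.Kp.R.Mp
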