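import Pool.Agent.Lib.MP_629a14_nt.Mp.Defs

/-! The admissible classes above an admissible class. -/

set_option autoImplicit false

namespace Pool.Agent.Lib.MP_629a14_nt.Kp.R.Mp

open Finset Filter Topology Pool.Agent.Lib.MP_629a14_nt Pool.Agent.Lib.MP_629a14_nt.Rob
open Pool.Agent.Lib.MP_629a14_nt.Mp (tr Gk RM)

/-- Apply `sum_lift` (Kp/PfUnif) with `v = W + 1`, `R = primorial v * W`, `κ = n` to the moduli `W₀` (and
`c`) and `W` (and `n`), with `h` the indicator function of the residue `r₀` modulo `W₀`; compare the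
proof of `adm_card_pos` (Kp/PfMean), where also `0 < (Uk (primorial v) R κ).card` is shown. -/
theorem lift_card {W₀ W n c r₀ : ℕ} (hW₀ : 1 ≤ W₀) (h2 : 2 ∣ W₀) (hc : 2 ∣ c) (hW : 1 ≤ W)
    (hd : W₀ ∣ W) (hn : n ≡ c [MOD W₀]) (hr₀ : r₀ ∈ adm W₀ c) :
    ((adm W₀ c).card : ℝ) * ((adm W n).filter (fun r => r % W₀ = r₀)).card = (adm W n).card := by
  classical
  have hn2 : 2 ∣ n := (hn.of_dvd h2).dvd_iff (dvd_refl 2) |>.2 hc
  obtain ⟨v, hv⟩ : ∃ v : ℕ, v = W + 1 := ⟨_, rfl⟩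
  obtain ⟨R, hR⟩ : ∃ R : ℕ, R = primorial v * W := ⟨_, rfl⟩
  have hR0 : 0 < R := by
    rw [hR]
    exact Nat.mul_pos (primorial_pos v) (by omega)
  have : NeZero R := ⟨by omega⟩
  have hWR : W ∣ R := by
    rw [hR]
    exact dvd_mul_left _ _
  have hVR : primorial v ∣ R := by
    rw [hR]
    exact dvd_mul_right _ _
  have hκ : ((n : ZMod R)).val ≡ n [MOD W] := val_natCast_mod hWR n
  have hκ0 : ((n : ZMod R)).val ≡ c [MOD W₀] := (hκ.of_dvd hd).trans hn
  have hcs := cnt_sig v R n (by omega) hVR hn2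
  rw [cnt_eq] at hcs
  have h3 : 0 < ((Uk (primorial v) R (n : ZMod R)).card : ℝ) * En.kap v ^ 2 := by
    rw [hcs]
    exact mul_pos (by exact_mod_cast hR0) (sig_pos' _ _)
  have h4 : (0 : ℝ) < (Uk (primorial v) R (n : ZMod R)).card :=
    pos_of_mul_pos_left h3 (sq_nonneg _)
  have hWle : W₀ ≤ W := Nat.le_of_dvd (by omega) hd
  have e1 := sum_lift hW₀ (hd.trans hWR) hVR (by omega : W₀ ≤ v) hκ0
    (fun r => if r = r₀ then (1 : ℝ) else 0)
  have e2 := sum_lift hW hWR hVR (by omega : W ≤ v) hκ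
    (fun r => if r % W₀ = r₀ then (1 : ℝ) else 0)
  have e3 : ∀ b : ZMod R, (if b.val % W % W₀ = r₀ then (1 : ℝ) else 0) =
      if b.val % W₀ = r₀ then (1 : ℝ) else 0 := by
    intro b
    rw [Nat.mod_mod_of_dvd _ hd]
  simp only [e3] at e2
  have e4 : ∑ r ∈ adm W₀ c, (if r = r₀ then (1 : ℝ) else 0) = 1 := by
    rw [sum_ite_eq' (adm W₀ c) r₀ (fun _ => (1 : ℝ))]
    simp [hr₀]
  have e5 : ∑ r ∈ adm W n, (if r % W₀ = r₀ then (1 : ℝ) else 0) =
      (((adm W n).filter (fun r => r % W₀ = r₀)).card : ℝ) := by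
    rw [← sum_filter, sum_const, nsmul_eq_mul, mul_one]
  rw [e4, mul_one] at e1
  rw [e5] at e2
  obtain ⟨X, hX⟩ : ∃ X : ℝ, X = ∑ b ∈ Uk (primorial v) R (n : ZMod R),
    (if b.val % W₀ = r₀ then (1 : ℝ) else 0) := ⟨_, rfl⟩
  rw [← hX] at e1 e2
  -- card adm W n * X = U * S, card adm W₀ c * X = U
  have e6 : ((Uk (primorial v) R (n : ZMod R)).card : ℝ) * (((adm W₀ c).card : ℝ) *
      ((adm W n).filter (fun r => r % W₀ = r₀)).card) =
      ((Uk (primorial v) R (n : ZMod R)).card : ℝ) * (adm W n).card := by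
    calc _ = ((adm W₀ c).card : ℝ) * (((Uk (primorial v) R (n : ZMod R)).card : ℝ) *
          ((adm W n).filter (fun r => r % W₀ = r₀)).card) := by ring
      _ = ((adm W₀ c).card : ℝ) * (((adm W n).card : ℝ) * X) := by rw [e2]
      _ = (((adm W₀ c).card : ℝ) * X) * (adm W n).card := by ring
      _ = _ := by rw [e1]
  exact mul_left_cancel₀ h4.ne' e6

end Pool.Agent.Lib.MP_629a14_nt.Kp.R.Mp
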