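import Pool.Agent.Lib.MP_629a14_nt.Mp.Defs

/-! The lower densities in the classes bound the sums of the densities of the cells. -/

set_option autoImplicit false

namespace Pool.Agent.Lib.MP_629a14_nt.Kp.R.Mp

open Finset Filter Topology Pool.Agent.Lib.MP_629a14_nt Pool.Agent.Lib.MP_629a14_nt.Rob
open Pool.Agent.Lib.MP_629a14_nt.Mp (tr Gk RM)

private theorem cl_primesIn (A : Set ℕ) (R b x : ℕ) :
    primesIn A R b x = cntA A R b x := by
  classical
  unfold primesIn cntA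
  rw [← Set.ncard_coe_finset]
  congr 1
  ext p
  simp only [Set.mem_ofPred_eq, coe_filter, mem_Icc]
  constructor
  · rintro ⟨h1, h2, h3, h4⟩
    exact ⟨⟨h2.one_le, h1⟩, h2, h3, h4⟩
  · rintro ⟨⟨h0, h1⟩, h2, h3, h4⟩
    exact ⟨h1, h2, h3, h4⟩

/-- The last integer before the cell `k`. -/
private def cl_q (K N k : ℕ) : ℕ := (k * (N + 1) - 1) / K

private theorem cl_iff {K N k p : ℕ} (hK : 1 ≤ K) (hp : 1 ≤ p) :
    p ≤ cl_q K N k ↔ cell K N p < k := by
  unfold cl_q cell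
  rw [Nat.le_div_iff_mul_le (by omega), Nat.div_lt_iff_lt_mul (by omega)]
  have h1 : 1 ≤ p * K := Nat.mul_pos (by omega) (by omega)
  omega

private theorem cl_le {K N k : ℕ} (hK : 1 ≤ K) (hk : k ≤ K) : cl_q K N k ≤ N := by
  unfold cl_q
  rw [← Nat.lt_succ_iff, Nat.div_lt_iff_lt_mul (by omega)]
  have h1 : k * (N + 1) ≤ K * (N + 1) := Nat.mul_le_mul_right _ hk
  have h2 : 1 ≤ K * (N + 1) := Nat.mul_pos (by omega) (by omega)
  have h3 : N.succ * K = K * (N + 1) := by rw [mul_comm]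
  omega

private theorem cl_close {K N k : ℕ} (hK : 1 ≤ K) (hk : k ≤ K) :
    (k : ℝ) * N / K ≤ cl_q K N k + 2 := by
  have hK' : (1 : ℝ) ≤ K := by exact_mod_cast hK
  have hk' : (k : ℝ) ≤ K := by exact_mod_cast hk
  have hk0 : (0 : ℝ) ≤ k := Nat.cast_nonneg k
  have h2 : k * (N + 1) ≤ cl_q K N k * K + K := by
    have h3 := Nat.lt_div_mul_add (a := k * (N + 1) - 1) (b := K) (by omega)
    unfold cl_q
    omega
  have h2' : (k : ℝ) * (N + 1) ≤ cl_q K N k * K + K := by exact_mod_cast h2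
  rw [div_le_iff₀ (by linarith)]
  nlinarith

private theorem cl_sum (A : Set ℕ) {W K N j r : ℕ} (hK : 1 ≤ K) (hj : j ≤ K) (hr : r < W) :
    ∑ i ∈ range j, cellc A W K N i r = cntA A W r (cl_q K N j) := by
  classical
  have hl := cl_le (K := K) (N := N) (k := j) hK hj
  have hmod : ∀ p : ℕ, p % W = r ↔ p ≡ r [MOD W] := by
    intro p
    unfold Nat.ModEq
    rw [Nat.mod_eq_of_lt hr]
  unfold cntA cellc
  rw [← card_biUnion]
  · congr 1
    ext p
    simp only [mem_biUnion, mem_range, mem_filter, mem_Icc, hmod]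
    constructor
    · rintro ⟨i, hi, ⟨h1, h2⟩, h3, h4, h5, h6⟩
      exact ⟨⟨h1, (cl_iff hK h1).2 (by omega)⟩, h3, h4, h6⟩
    · rintro ⟨⟨h1, h2⟩, h3, h4, h6⟩
      exact ⟨cell K N p, (cl_iff hK h1).1 h2, ⟨h1, h2.trans hl⟩, h3, h4, rfl, h6⟩
  · intro i _ i' _ hii
    rw [Function.onFun, disjoint_left]
    intro p hp hp'
    simp only [mem_filter] at hp hp'
    exact hii (hp.2.2.2.1.symm.trans hp'.2.2.2.1)

private theorem cl_close' {K N k : ℕ} (hK : 1 ≤ K) (hk : k ≤ K) :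
    (cl_q K N k : ℝ) ≤ (k : ℝ) * N / K + 1 := by
  have hK' : (1 : ℝ) ≤ K := by exact_mod_cast hK
  have hk' : (k : ℝ) ≤ K := by exact_mod_cast hk
  have h2 : cl_q K N k * K ≤ k * (N + 1) := by
    unfold cl_q
    exact (Nat.div_mul_le_self _ _).trans (Nat.sub_le _ _)
  have h2' : (cl_q K N k : ℝ) * K ≤ k * (N + 1) := by exact_mod_cast h2
  have h3 : (k : ℝ) * N / K + 1 = (k * N + K) / K := by
    rw [add_div, div_self (by linarith)]
  rw [h3, le_div_iff₀ (by linarith)]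
  linarith

/-- The primes of the class `r` in the cell `k`: `|log N * cellc - N / (K φ(W))| ≤ ρ N`. Compare the
proofs of `full_ev`, `pnt_cell` (Kr/Pnt) and `cellc_eq` (Kr/StarD). -/
theorem cell_pnt (W K : ℕ) (hW : 1 ≤ W) (hK : 1 ≤ K) (ρ : ℝ) (hρ : 0 < ρ) : ∃ N₀ : ℕ, ∀ N : ℕ,
    N₀ ≤ N → ∀ k r : ℕ, k < K → r < W → r.Coprime W →
      |Real.log N * (cellc Set.univ W K N k r : ℝ) - N / (K * W.totient)| ≤ ρ * N := by
  obtain ⟨N₁, hN₁⟩ := pnt_class W hW (ρ / 4) (by positivity)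
  obtain ⟨N₂, hN₂⟩ := exists_nat_ge (8 / ρ)
  refine ⟨max N₁ N₂, fun N hN k r hk hr hrc => ?_⟩
  have hN1 : N₁ ≤ N := (le_max_left _ _).trans hN
  have hN2 : 8 / ρ ≤ N := hN₂.trans (by exact_mod_cast (le_max_right _ _).trans hN)
  have hN2' : 8 ≤ ρ * N := by
    rw [div_le_iff₀ hρ] at hN2
    linarith
  have hφ : (1 : ℝ) ≤ W.totient := by
    have := Nat.totient_pos.2 (show 0 < W by omega)
    exact_mod_cast this
  have hK' : (1 : ℝ) ≤ K := by exact_mod_cast hK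
  have e1 := cl_sum (N := N) Set.univ hK (show k + 1 ≤ K by omega) hr
  rw [sum_range_succ, cl_sum (N := N) Set.univ hK hk.le hr] at e1
  have e2 : (cellc Set.univ W K N k r : ℝ) =
      cntA Set.univ W r (cl_q K N (k + 1)) - cntA Set.univ W r (cl_q K N k) := by
    rw [← e1, Nat.cast_add]
    ring
  have f1 := hN₁ N hN1 r hrc _ (cl_le (K := K) (N := N) (k := k + 1) hK (by omega))
  have f2 := hN₁ N hN1 r hrc _ (cl_le (K := K) (N := N) (k := k) hK hk.le)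
  have c1 := cl_close (K := K) (N := N) (k := k + 1) hK (by omega)
  have c2 := cl_close (K := K) (N := N) (k := k) hK hk.le
  have d1 := cl_close' (K := K) (N := N) (k := k + 1) hK (by omega)
  have d2 := cl_close' (K := K) (N := N) (k := k) hK hk.le
  rw [abs_le] at f1 f2
  rw [e2]
  obtain ⟨x, hx⟩ : ∃ x : ℝ, x = (cl_q K N (k + 1) : ℝ) := ⟨_, rfl⟩
  obtain ⟨y, hy⟩ : ∃ y : ℝ, y = (cl_q K N k : ℝ) := ⟨_, rfl⟩
  rw [← hx] at f1 c1 d1
  rw [← hy] at f2 c2 d2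
  push_cast at c1 d1
  have g : (N : ℝ) / K = ((k : ℝ) + 1) * N / K - (k : ℝ) * N / K := by ring
  have h1 : (N : ℝ) / K - 2 ≤ x - y + 1 := by linarith
  have h2 : x - y ≤ (N : ℝ) / K + 3 := by linarith
  have h3 : |(x - y) / W.totient - N / (K * W.totient)| ≤ 3 := by
    have e3 : (x - y) / W.totient - N / (K * W.totient) = ((x - y) - N / K) / W.totient := by
      rw [sub_div (x - y), div_div (N : ℝ)]
    rw [e3, abs_div, abs_of_pos (show (0 : ℝ) < W.totient by linarith), div_le_iff₀ (by linarith)]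
    have : |x - y - (N : ℝ) / K| ≤ 3 := by
      rw [abs_le]
      constructor <;> linarith
    nlinarith
  rw [abs_le] at h3 ⊢
  have e4 : (x - y) / (W.totient : ℝ) = x / W.totient - y / W.totient := sub_div _ _ _
  rw [e4] at h3
  constructor
  · nlinarith [f1.1, f2.2, h3.1]
  · nlinarith [f1.2, f2.1, h3.2]


/-- The primes of the class `r` in the first `j` cells: if `A` has lower density at least `u` in the
class, their number is at least `(u - ρ) j N / (K φ(W) log N) - ρ N / log N`. -/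
theorem cell_low {W₀ W : ℕ} {u : ℕ → ℝ} {A : Set ℕ} (hA : Low A W₀ u) (hW : 1 ≤ W) (hd : W₀ ∣ W)
    (hu : ∀ r, r < W₀ → r.Coprime W₀ → 0 ≤ u r ∧ u r ≤ 1) (K : ℕ) (hK : 1 ≤ K) (ρ : ℝ)
    (hρ : 0 < ρ) : ∃ N₀ : ℕ, ∀ N : ℕ, N₀ ≤ N → ∀ j r : ℕ, j ≤ K → r < W → r.Coprime W →
      u (r % W₀) * (j * N / (K * W.totient)) - ρ * N ≤
        Real.log N * (∑ i ∈ range j, cellc A W K N i r : ℕ) := by
  classical
  have hW₀ : 0 < W₀ := Nat.pos_of_dvd_of_pos hd hW
  have hφ : (1 : ℝ) ≤ W.totient := by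
    have := Nat.totient_pos.2 (show 0 < W by omega)
    exact_mod_cast this
  have hK' : (1 : ℝ) ≤ K := by exact_mod_cast hK
  -- the threshold for the densities
  have hth : ∀ r : ℕ, ∃ X : ℕ, r.Coprime W → ∀ x : ℕ, X ≤ x →
      (u (r % W₀) - ρ / 8) * (cntA Set.univ W r x : ℝ) ≤ cntA A W r x := by
    intro r
    by_cases hr : r.Coprime W
    · obtain ⟨X, hX⟩ := eventually_atTop.1 (hA W r hW hd hr (ρ / 8) (by positivity))
      refine ⟨X, fun _ x hx => ?_⟩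
      have := hX x hx
      rwa [cl_primesIn, cl_primesIn] at this
    · exact ⟨0, fun h => absurd h hr⟩
  choose X hX using hth
  obtain ⟨X₁, hX₁⟩ : ∃ X₁ : ℕ, X₁ = ∑ r ∈ range W, X r := ⟨_, rfl⟩
  have hXle : ∀ r, r < W → X r ≤ X₁ := by
    intro r hr
    rw [hX₁]
    exact single_le_sum (fun _ _ => Nat.zero_le _) (mem_range.2 hr)
  obtain ⟨N₁, hN₁⟩ := pnt_class W hW (min (ρ / 8) 1) (lt_min (by positivity) one_pos)
  obtain ⟨N₂, hN₂⟩ := exists_nat_ge (8 / ρ)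
  obtain ⟨N₃, hN₃⟩ := exists_nat_ge (((X₁ : ℝ) + 2) / ρ)
  refine ⟨max N₁ (max N₂ N₃), fun N hN j r hj hr hrc => ?_⟩
  have hN1 : N₁ ≤ N := (le_max_left _ _).trans hN
  have hN2 : 8 / ρ ≤ N := hN₂.trans (by
    exact_mod_cast ((le_max_left _ _).trans (le_max_right _ _)).trans hN)
  have hN3 : ((X₁ : ℝ) + 2) / ρ ≤ N := hN₃.trans (by
    exact_mod_cast ((le_max_right _ _).trans (le_max_right _ _)).trans hN)
  have hN2' : 8 ≤ ρ * N := by
    rw [div_le_iff₀ hρ] at hN2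
    linarith
  have hN3' : (X₁ : ℝ) + 2 ≤ ρ * N := by
    rw [div_le_iff₀ hρ] at hN3
    linarith
  have hrc₀ : (r % W₀).Coprime W₀ := by
    have h1 : r.Coprime W₀ := hrc.coprime_dvd_right hd
    unfold Nat.Coprime at h1 ⊢
    rw [(Nat.mod_modEq r W₀).gcd_eq]
    exact h1
  obtain ⟨hu0, hu1⟩ := hu (r % W₀) (Nat.mod_lt _ hW₀) hrc₀
  rw [cl_sum A hK hj hr]
  obtain ⟨x, hx⟩ : ∃ x : ℕ, x = cl_q K N j := ⟨_, rfl⟩
  have hxN : x ≤ N := hx ▸ cl_le hK hj
  have hcl := cl_close (K := K) (N := N) (k := j) hK hj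
  rw [← hx] at hcl ⊢
  obtain ⟨v, hv⟩ : ∃ v : ℝ, v = u (r % W₀) := ⟨_, rfl⟩
  rw [← hv] at hu0 hu1 ⊢
  have hlog0 : 0 ≤ Real.log N := Real.log_natCast_nonneg N
  have hx0 : (0 : ℝ) ≤ x := Nat.cast_nonneg x
  have hxN' : (x : ℝ) ≤ N := by exact_mod_cast hxN
  have hN0 : (0 : ℝ) ≤ N := Nat.cast_nonneg N
  -- the main term
  have hmain : (j : ℝ) * N / (K * W.totient) ≤ (x : ℝ) / W.totient + 2 := by
    have h1 : (j : ℝ) * N / (K * W.totient) = (j * N / K) / W.totient := by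
      rw [div_div]
    rw [h1]
    have h2 : ((j : ℝ) * N / K) / W.totient ≤ ((x : ℝ) + 2) / W.totient :=
      div_le_div_of_nonneg_right hcl (by linarith)
    have h3 : ((x : ℝ) + 2) / W.totient = (x : ℝ) / W.totient + 2 / W.totient := by ring
    have h4 : (2 : ℝ) / W.totient ≤ 2 := by
      rw [div_le_iff₀ (by linarith)]
      linarith
    linarith
  have hxφ0 : 0 ≤ (x : ℝ) / W.totient := by positivity
  have hxφ : (x : ℝ) / W.totient ≤ x := by
    rw [div_le_iff₀ (by linarith)]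
    nlinarith
  have hvm : v * ((j : ℝ) * N / (K * W.totient)) ≤ v * ((x : ℝ) / W.totient) + 2 := by
    have h1 := mul_le_mul_of_nonneg_left hmain hu0
    nlinarith
  have hAn : (0 : ℝ) ≤ Real.log N * (cntA A W r x : ℝ) := mul_nonneg hlog0 (Nat.cast_nonneg _)
  rcases le_or_gt X₁ x with hXx | hXx
  · have h1 := hX r hrc x ((hXle r hr).trans hXx)
    rw [← hv] at h1
    have h2 := mul_le_mul_of_nonneg_left h1 hlog0
    obtain ⟨L, hL⟩ : ∃ L : ℝ, L = Real.log N * (cntA Set.univ W r x : ℝ) := ⟨_, rfl⟩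
    have h3 := hN₁ N hN1 r hrc x hxN
    rw [← hL, abs_le] at h3
    have hm1 : min (ρ / 8) 1 ≤ ρ / 8 := min_le_left _ _
    have hm2 : min (ρ / 8) 1 ≤ (1 : ℝ) := min_le_right _ _
    have hm3 : min (ρ / 8) 1 * (N : ℝ) ≤ ρ / 8 * N := mul_le_mul_of_nonneg_right hm1 hN0
    have hm4 : min (ρ / 8) 1 * (N : ℝ) ≤ 1 * N := mul_le_mul_of_nonneg_right hm2 hN0
    have h4 : Real.log N * ((v - ρ / 8) * (cntA Set.univ W r x : ℝ)) = v * L - ρ / 8 * L := by
      rw [hL]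
      ring
    rw [h4] at h2
    have h5 : (x : ℝ) / W.totient - ρ / 8 * N ≤ L := by linarith [h3.1]
    have h6 : L ≤ 2 * N := by linarith [h3.2]
    have h7 : v * ((x : ℝ) / W.totient - ρ / 8 * N) ≤ v * L := mul_le_mul_of_nonneg_left h5 hu0
    have h8 : ρ / 8 * L ≤ ρ / 8 * (2 * N) := mul_le_mul_of_nonneg_left h6 (by positivity)
    have h9 : v * (ρ / 8 * N) ≤ 1 * (ρ / 8 * N) := mul_le_mul_of_nonneg_right hu1 (by positivity)
    have h10 : v * ((x : ℝ) / W.totient - ρ / 8 * N) =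
      v * ((x : ℝ) / W.totient) - v * (ρ / 8 * N) := by ring
    linarith
  · have h1 : (x : ℝ) ≤ X₁ := by exact_mod_cast hXx.le
    have h2 : v * ((x : ℝ) / W.totient) ≤ 1 * ((x : ℝ) / W.totient) :=
      mul_le_mul_of_nonneg_right hu1 hxφ0
    linarith

theorem pre_sum {W₀ W : ℕ} {u : ℕ → ℝ} {A : Set ℕ} (hA : Low A W₀ u) (hW₀ : 1 ≤ W₀) (hW : 1 ≤ W)
    (hd : W₀ ∣ W) (hu : ∀ r, r < W₀ → r.Coprime W₀ → 0 ≤ u r ∧ u r ≤ 1) (K : ℕ) (hK : 1 ≤ K)
    (δ : ℝ) (hδ : 0 < δ) : ∃ N₀ : ℕ, ∀ N : ℕ, N₀ ≤ N → ∀ j r : ℕ, j ≤ K → r < W → r.Coprime W →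
      u (r % W₀) * j - δ * K ≤ ∑ i ∈ range j, dns A W K N i r := by
  have hφ : (0 : ℝ) < W.totient := by exact_mod_cast Nat.totient_pos.2 hW
  have hKr : (1 : ℝ) ≤ K := by exact_mod_cast hK
  have hK0 : (0 : ℝ) < K := by linarith
  have hKφ : (0 : ℝ) < K * W.totient := mul_pos hK0 hφ
  set θ : ℝ := min (δ / 2) (1 / 2) with hθ
  have hθ0 : 0 < θ := lt_min (by linarith) (by norm_num)
  have hθ1 : θ ≤ δ / 2 := min_le_left _ _
  have hθ2 : θ ≤ 1 / 2 := min_le_right _ _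
  have hρ : 0 < θ / (K * W.totient) := div_pos hθ0 hKφ
  obtain ⟨N₁, h1⟩ := cell_pnt W K hW hK (θ / (K * W.totient)) hρ
  obtain ⟨N₂, h2⟩ := cell_low hA hW hd hu K hK (θ / (K * W.totient)) hρ
  refine ⟨max (max N₁ N₂) 1, fun N hN j r hj hr hrc => ?_⟩
  have hN1 : N₁ ≤ N := (le_max_left _ _).trans ((le_max_left _ _).trans hN)
  have hN2 : N₂ ≤ N := (le_max_right _ _).trans ((le_max_left _ _).trans hN)
  have hN3 : 1 ≤ N := (le_max_right _ _).trans hN
  have hNr : (1 : ℝ) ≤ N := by exact_mod_cast hN3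
  have hL : 0 ≤ Real.log N := Real.log_nonneg hNr
  obtain ⟨m, hm⟩ : ∃ m : ℝ, m = N / (K * W.totient) := ⟨_, rfl⟩
  have hm0 : 0 < m := by rw [hm]; exact div_pos (by linarith) hKφ
  have hρN : θ / (K * W.totient) * N = θ * m := by rw [hm]; ring
  have hu' : 0 ≤ u (r % W₀) ∧ u (r % W₀) ≤ 1 := by
    refine hu _ (Nat.mod_lt _ hW₀) ?_
    have h3 : r.Coprime W₀ := Nat.Coprime.coprime_dvd_right hd hrc
    have h4 : Nat.gcd (r % W₀) W₀ = Nat.gcd r W₀ := by
      rw [← Nat.gcd_rec, Nat.gcd_comm]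
    show Nat.gcd (r % W₀) W₀ = 1
    rw [h4]
    exact h3
  have hterm : ∀ i ∈ range j, Real.log N * (cellc A W K N i r : ℝ) / (m * (1 + θ)) ≤
      dns A W K N i r := by
    intro i hi
    have h3 := h1 N hN1 i r ((mem_range.1 hi).trans_le hj) hr hrc
    rw [hρN, ← hm] at h3
    obtain ⟨h4, h5⟩ := abs_le.1 h3
    have h6 : 0 < Real.log N * (cellc Set.univ W K N i r : ℝ) := by nlinarith
    have h7 : (cellc Set.univ W K N i r : ℝ) ≠ 0 := by
      rintro h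
      rw [h, mul_zero] at h6
      exact lt_irrefl _ h6
    have h8 : Real.log N ≠ 0 := by
      rintro h
      rw [h, zero_mul] at h6
      exact lt_irrefl _ h6
    have h9 : dns A W K N i r = Real.log N * (cellc A W K N i r : ℝ) /
        (Real.log N * (cellc Set.univ W K N i r : ℝ)) := by
      unfold dns
      rw [mul_div_mul_left _ _ h8]
    rw [h9]
    exact div_le_div_of_nonneg_left (mul_nonneg hL (Nat.cast_nonneg _)) h6 (by linarith)
  have h3 := sum_le_sum hterm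
  rw [← sum_div, ← mul_sum] at h3
  have h4 := h2 N hN2 j r hj hr hrc
  have e : u (r % W₀) * (j * N / (K * W.totient)) = u (r % W₀) * j * m := by rw [hm]; ring
  rw [hρN, e, Nat.cast_sum] at h4
  refine le_trans ?_ h3
  have hmθ : 0 < m * (1 + θ) := by positivity
  have h5 : (u (r % W₀) * j * m - θ * m) / (m * (1 + θ)) ≤
      (Real.log N * ∑ i ∈ range j, (cellc A W K N i r : ℝ)) / (m * (1 + θ)) :=
    div_le_div_of_nonneg_right h4 hmθ.le
  refine le_trans ?_ h5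
  rw [le_div_iff₀ hmθ]
  have hj' : (j : ℝ) ≤ K := by exact_mod_cast hj
  have hj0 : (0 : ℝ) ≤ j := Nat.cast_nonneg _
  obtain ⟨x, hx⟩ : ∃ x : ℝ, x = u (r % W₀) * j := ⟨_, rfl⟩
  have hx0 : 0 ≤ x := by rw [hx]; exact mul_nonneg hu'.1 hj0
  have hxK : x ≤ K := by
    rw [hx]
    calc _ ≤ 1 * (j : ℝ) := mul_le_mul_of_nonneg_right hu'.2 hj0
      _ ≤ K := by rw [one_mul]; exact hj'
  rw [← hx]
  have h6 : (x - δ * K) * (1 + θ) ≤ x - θ := by
    have g1 : θ * x ≤ θ * K := mul_le_mul_of_nonneg_left hxK hθ0.le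
    have g2 : θ * K ≤ δ / 2 * K := mul_le_mul_of_nonneg_right hθ1 hK0.le
    have g3 : 0 ≤ δ * K * θ := by positivity
    have g4 : θ * 1 ≤ θ * K := mul_le_mul_of_nonneg_left hKr hθ0.le
    nlinarith
  calc (x - δ * K) * (m * (1 + θ)) = m * ((x - δ * K) * (1 + θ)) := by ring
    _ ≤ m * (x - θ) := mul_le_mul_of_nonneg_left h6 hm0.le
    _ = x * m - θ * m := by ring

end Pool.Agent.Lib.MP_629a14_nt.Kp.R.Mp
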