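import Pool.Agent.Lib.MP_629a14_nt.Mp.Sum
import Pool.Agent.Lib.MP_629a14_nt.Mp.Pre
import Pool.Agent.Lib.MP_629a14_nt.Mp.Cnt

/-! The lower bound. -/

set_option autoImplicit false

namespace Pool.Agent.Lib.MP_629a14_nt.Kp.R.Mp

open Finset Filter Topology Pool.Agent.Lib.MP_629a14_nt Pool.Agent.Lib.MP_629a14_nt.Rob
open Pool.Agent.Lib.MP_629a14_nt.Mp (tr Gk RM)

theorem unif2 (L : ℕ) (P : ℕ → ℕ → ℕ → Prop) (h : ∀ W K : ℕ, ∃ N₀ : ℕ, ∀ N : ℕ, N₀ ≤ N → P W K N) :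
    ∃ N₀ : ℕ, ∀ N : ℕ, N₀ ≤ N → ∀ W K : ℕ, W ≤ L → K ≤ L → P W K N := by
  choose f hf using h
  refine ⟨(range (L + 1)).sup (fun W => (range (L + 1)).sup (fun K => f W K)), fun N hN W K hW hK =>
    hf W K N ?_⟩
  refine le_trans ?_ hN
  refine le_trans ?_ (le_sup (f := fun W => (range (L + 1)).sup (fun K => f W K))
    (mem_range.2 (by omega : W < L + 1)))
  exact le_sup (f := fun K => f W K) (mem_range.2 (by omega : K < L + 1))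

/-- Truncated sums: from `main`. -/
theorem trunc_low (q : ℕ) (hq : 1 ≤ q) (ε : ℝ) (hε : 0 < ε) : ∃ L : ℕ, ∀ N : ℕ, L ≤ N →
    ∀ A B : Set ℕ, ∃ W K : ℕ, 1 ≤ W ∧ W ≤ L ∧ 1 ≤ K ∧ K ≤ L ∧ q ∣ W ∧
      ∀ t : ℝ, ∀ c : ℕ,
        ∑ n ∈ (Icc 1 N).filter (fun n => Even n ∧ n ≡ c [MOD q]),
          RT W K N (dns A W K N) (dns B W K N) t n - 2 * ε * N ≤
        ∑ n ∈ (Icc 1 N).filter (fun n => Even n ∧ n ≡ c [MOD q]), min (rho A B n) t := by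
  obtain ⟨C, hC, hC', h⟩ := main
  obtain ⟨L, hL⟩ := h q hq ε hε
  refine ⟨L, fun N hN A B => ?_⟩
  obtain ⟨W, K, h1, h2, h3, h4, h5, -, h6⟩ := hL N hN A B
  refine ⟨W, K, h1, h2, h3, h4, h5, fun t c => ?_⟩
  have hconv : ConvexOn ℝ (Set.Icc 0 C) (fun y : ℝ => -min y t) := by
    have h7 : ConcaveOn ℝ (Set.Icc 0 C) (fun y : ℝ => min y t) :=
      (concaveOn_id (convex_Icc _ _)).inf (concaveOn_const _ (convex_Icc _ _))
    exact h7.neg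
  have hlip : ∀ x ∈ Set.Icc 0 C, ∀ y ∈ Set.Icc 0 C, |-min x t - -min y t| ≤ 1 * |x - y| := by
    intro x _ y _
    rw [one_mul]
    have h7 : -min x t - -min y t = -(min x t - min y t) := by ring
    rw [h7, abs_neg]
    exact (abs_min_sub_min_le_max x t y t).trans (by simp)
  obtain ⟨h8, h9⟩ := h6 (fun y => -min y t) 1 hconv hlip c 1 N le_rfl
  have h10 := (abs_le.1 h9).2
  have h11 : ∀ n : ℕ, Val W K N (dns A W K N) (dns B W K N) (fun y => -min y t) n =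
      -RT W K N (dns A W K N) (dns B W K N) t n := by
    intro n
    unfold Val RT lw
    rw [intervalIntegral.integral_neg]
    ring
  simp only [h11, sum_neg_distrib] at h8 h10
  linarith

/-- The lower bound for one admissible class. -/
theorem low (hRM : RM) {W₀ c r₀ : ℕ} {u v : ℕ → ℝ} (hW₀ : 1 ≤ W₀) (h2 : 2 ∣ W₀) (hc : 2 ∣ c)
    (hu : ∀ r, r < W₀ → r.Coprime W₀ → 0 ≤ u r ∧ u r ≤ 1)
    (hv : ∀ r, r < W₀ → r.Coprime W₀ → 0 ≤ v r ∧ v r ≤ 1) (hr₀ : r₀ ∈ adm W₀ c)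
    (hur : 0 < u r₀) (hvr : 0 < v ((c + W₀ - r₀) % W₀)) (ε : ℝ) (hε : 0 < ε) :
    ∃ κ : ℝ, 0 < κ ∧ ∀ A B : Set ℕ, Low A W₀ u → Low B W₀ v → ∃ N₀ : ℕ, ∀ N : ℕ, N₀ ≤ N →
      (min 1 (u r₀ + v ((c + W₀ - r₀) % W₀)) / W₀ - ε) * N ≤
        (((Icc 1 N).filter (fun n => n ≡ c [MOD W₀] ∧
          κ * size n ≤ Sm.repsIn A B n)).card : ℝ) := by
  classical
  obtain ⟨⟨hr1, hr2⟩, hs1, hs2⟩ := adm_mem1 hW₀ hr₀
  obtain ⟨s₀, hs₀⟩ : ∃ s₀ : ℕ, s₀ = (c + W₀ - r₀) % W₀ := ⟨_, rfl⟩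
  rw [← hs₀] at hs1 hs2 hvr ⊢
  obtain ⟨hu0, hu1⟩ := hu r₀ hr1 hr2
  obtain ⟨hv0, hv1⟩ := hv s₀ hs1 hs2
  obtain ⟨m, hm⟩ : ∃ m : ℝ, m = min 1 (u r₀ + v s₀) := ⟨_, rfl⟩
  rw [← hm]
  have hm1 : m ≤ 1 := by rw [hm]; exact min_le_left _ _
  have hW₀r : (1 : ℝ) ≤ W₀ := by exact_mod_cast hW₀
  obtain ⟨c₁, hc₁, hHL⟩ := HL_ge
  by_cases hμ : 0 ≤ m - ε / 8
  swap
  · refine ⟨1, one_pos, fun A B _ _ => ⟨0, fun N _ => ?_⟩⟩
    have h3 : m / W₀ - ε ≤ 0 := by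
      rw [sub_nonpos, div_le_iff₀ (by positivity)]
      nlinarith
    have hN : (0 : ℝ) ≤ N := Nat.cast_nonneg N
    exact (mul_nonpos_of_nonpos_of_nonneg h3 hN).trans (Nat.cast_nonneg _)
  obtain ⟨τ, δ, hτ, hδ, hR⟩ := hRM (u r₀) (v s₀) hur hu1 hvr hv1 (ε / 8) (by positivity)
  obtain ⟨η, hη⟩ : ∃ η : ℝ, η = min (1 / 4) (ε / 24) := ⟨_, rfl⟩
  have hη0 : 0 < η := by rw [hη]; positivity
  have hη1 : η ≤ 1 / 4 := by rw [hη]; exact min_le_left _ _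
  have hη2 : η ≤ ε / 24 := by rw [hη]; exact min_le_right _ _
  have hcard : 0 < (adm W₀ c).card := card_pos.2 ⟨r₀, hr₀⟩
  have hcardr : (0 : ℝ) < (adm W₀ c).card := by exact_mod_cast hcard
  obtain ⟨t, ht⟩ : ∃ t : ℝ, t = η / 2 * τ / (adm W₀ c).card := ⟨_, rfl⟩
  have ht0 : 0 < t := by rw [ht]; positivity
  obtain ⟨L, hL⟩ := trunc_low W₀ hW₀ (t * (ε / 16)) (by positivity)
  refine ⟨t * (ε / 16) * c₁, by positivity, fun A B hA hB => ?_⟩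
  -- the sums of the densities
  have hpA : ∀ W K : ℕ, ∃ N₀ : ℕ, ∀ N : ℕ, N₀ ≤ N → (1 ≤ W → W₀ ∣ W → 1 ≤ K →
      ∀ j r : ℕ, j ≤ K → r < W → r.Coprime W →
        u (r % W₀) * j - δ * K ≤ ∑ i ∈ range j, dns A W K N i r) := by
    intro W K
    by_cases h : 1 ≤ W ∧ W₀ ∣ W ∧ 1 ≤ K
    · obtain ⟨N₀, h0⟩ := pre_sum hA hW₀ h.1 h.2.1 hu K h.2.2 δ hδ
      exact ⟨N₀, fun N hN _ _ _ => h0 N hN⟩
    · exact ⟨0, fun N _ h1 h2 h3 => absurd ⟨h1, h2, h3⟩ h⟩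
  have hpB : ∀ W K : ℕ, ∃ N₀ : ℕ, ∀ N : ℕ, N₀ ≤ N → (1 ≤ W → W₀ ∣ W → 1 ≤ K →
      ∀ j r : ℕ, j ≤ K → r < W → r.Coprime W →
        v (r % W₀) * j - δ * K ≤ ∑ i ∈ range j, dns B W K N i r) := by
    intro W K
    by_cases h : 1 ≤ W ∧ W₀ ∣ W ∧ 1 ≤ K
    · obtain ⟨N₀, h0⟩ := pre_sum hB hW₀ h.1 h.2.1 hv K h.2.2 δ hδ
      exact ⟨N₀, fun N hN _ _ _ => h0 N hN⟩
    · exact ⟨0, fun N _ h1 h2 h3 => absurd ⟨h1, h2, h3⟩ h⟩
  have hS : ∀ W K : ℕ, ∃ N₀ : ℕ, ∀ N : ℕ, N₀ ≤ N → (1 ≤ W → W₀ ∣ W → 1 ≤ K →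
      ∀ a b : ℕ → ℕ → ℝ, (∀ k r, 0 ≤ a k r ∧ a k r ≤ 1) →
      (∀ k r, 0 ≤ b k r ∧ b k r ≤ 1) → ∀ τ μ : ℝ, 0 < τ → 0 ≤ μ →
      (∀ r s : ℕ, r < W → r.Coprime W → r % W₀ = r₀ → s < W → s.Coprime W →
        s % W₀ = (c + W₀ - r₀) % W₀ →
        μ * K ≤ ∑ k ∈ range K, Vg K (fun k => a k r) (fun k => b k s) τ k) →
      η / 2 * τ / (adm W₀ c).card * μ * ((1 - 3 * η) * N / W₀) ≤
        ∑ n ∈ (Icc 1 N).filter (fun n => n ≡ c [MOD W₀]),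
          RT W K N a b (η / 2 * τ / (adm W₀ c).card) n) := by
    intro W K
    by_cases h : 1 ≤ W ∧ W₀ ∣ W ∧ 1 ≤ K
    · obtain ⟨N₀, h0⟩ := sum_ge W₀ W K hW₀ h2 h.1 h.2.1 h.2.2 c hc r₀ hr₀ η hη0 hη1
      exact ⟨N₀, fun N hN _ _ _ => h0 N hN⟩
    · exact ⟨0, fun N _ h1 h2 h3 => absurd ⟨h1, h2, h3⟩ h⟩
  obtain ⟨N₁, hN₁⟩ := unif2 L _ hpA
  obtain ⟨N₂, hN₂⟩ := unif2 L _ hpB
  obtain ⟨N₃, hN₃⟩ := unif2 L _ hS
  refine ⟨max L (max N₁ (max N₂ N₃)), fun N hN => ?_⟩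
  have hN' : L ≤ N ∧ N₁ ≤ N ∧ N₂ ≤ N ∧ N₃ ≤ N := by
    simp only [max_le_iff] at hN
    exact hN
  obtain ⟨hNL, hN1, hN2, hN3⟩ := hN'
  obtain ⟨W, K, hW1, hWL, hK1, hKL, hd, htr⟩ := hL N hNL A B
  have hA' := hN₁ N hN1 W K hWL hKL hW1 hd hK1
  have hB' := hN₂ N hN2 W K hWL hKL hW1 hd hK1
  have hS' := hN₃ N hN3 W K hWL hKL hW1 hd hK1 (dns A W K N) (dns B W K N)
    (fun k r => dns_mem A W K N k r) (fun k r => dns_mem B W K N k r) τ (m - ε / 8) hτ hμ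
    (by
      intro r s hr hrW hr₀' hs hsW hs₀'
      rw [← hs₀] at hs₀'
      have h3 := hR K (fun k => dns A W K N k r) (fun k => dns B W K N k s) hK1
        (fun k => dns_mem A W K N k r) (fun k => dns_mem B W K N k s)
        (fun j hj => by
          have h4 := hA' j r hj hr hrW
          rw [hr₀'] at h4
          exact h4)
        (fun j hj => by
          have h4 := hB' j s hj hs hsW
          rw [hs₀'] at h4
          exact h4)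
      rw [← hm] at h3
      exact h3)
  rw [← ht] at hS'
  have hfil : (Icc 1 N).filter (fun n => Even n ∧ n ≡ c [MOD W₀]) =
      (Icc 1 N).filter (fun n => n ≡ c [MOD W₀]) := by
    refine filter_congr fun n _ => ⟨fun h => h.2, fun h => ⟨?_, h⟩⟩
    rw [even_iff_two_dvd]
    exact (h.of_dvd h2).dvd_iff (dvd_refl 2) |>.2 hc
  have htr' := htr t c
  rw [hfil] at htr'
  have hNr : (0 : ℝ) ≤ N := Nat.cast_nonneg N
  have hcnt := cnt_ge ((Icc 1 N).filter (fun n => n ≡ c [MOD W₀])) (rho A B) (t * (ε / 16)) t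
    (t * (m - ε / 8) * ((1 - 3 * η) * N / W₀) - 2 * (t * (ε / 16)) * N) (by positivity) ht0
    (by linarith)
  have hSN : ((((Icc 1 N).filter (fun n => n ≡ c [MOD W₀])).card : ℕ) : ℝ) ≤ N := by
    have h3 : ((Icc 1 N).filter (fun n => n ≡ c [MOD W₀])).card ≤ N := by
      refine (card_filter_le _ _).trans ?_
      rw [Nat.card_Icc]
      omega
    exact_mod_cast h3
  have hsub : (((((Icc 1 N).filter (fun n => n ≡ c [MOD W₀])).filter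
      (fun n => t * (ε / 16) ≤ rho A B n)).card : ℕ) : ℝ) ≤
      (((Icc 1 N).filter (fun n => n ≡ c [MOD W₀] ∧
        t * (ε / 16) * c₁ * size n ≤ Sm.repsIn A B n)).card : ℝ) := by
    refine Nat.cast_le.2 (card_le_card fun n hn => ?_)
    rw [mem_filter, mem_filter, mem_Icc] at hn
    rw [mem_filter, mem_Icc]
    obtain ⟨⟨hn1, hn2⟩, hn3⟩ := hn
    refine ⟨hn1, hn2, ?_⟩
    have hev : 2 ∣ n := (hn2.of_dvd h2).dvd_iff (dvd_refl 2) |>.2 hc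
    have h3 := hHL n (by omega) (even_iff_two_dvd.2 hev)
    unfold rho at hn3
    have hHL0 : 0 < En.HL n := by
      by_contra h4
      have h5 : (Sm.repsIn A B n : ℝ) / En.HL n ≤ 0 :=
        div_nonpos_of_nonneg_of_nonpos (Nat.cast_nonneg _) (not_lt.1 h4)
      have h6 : 0 < t * (ε / 16) := by positivity
      linarith
    rw [le_div_iff₀ hHL0] at hn3
    calc t * (ε / 16) * c₁ * size n = t * (ε / 16) * (c₁ * size n) := by ring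
      _ ≤ t * (ε / 16) * En.HL n := mul_le_mul_of_nonneg_left h3 (by positivity)
      _ ≤ _ := hn3
  refine le_trans ?_ (hcnt.trans hsub)
  rw [le_div_iff₀ ht0]
  have h3 : (m - ε / 8) * (1 - 3 * η) ≥ m - ε / 4 := by nlinarith
  have h4 : (m - ε / 4) * (N / W₀) ≤ (m - ε / 8) * ((1 - 3 * η) * N / W₀) := by
    have h5 : (m - ε / 8) * ((1 - 3 * η) * N / W₀) = (m - ε / 8) * (1 - 3 * η) * (N / W₀) := by ring
    rw [h5]
    exact mul_le_mul_of_nonneg_right h3 (by positivity)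
  have h6 : (N : ℝ) / W₀ ≤ N := div_le_self hNr hW₀r
  have h7 : (m / W₀ - ε) * N ≤ (m - ε / 4) * (N / W₀) - 3 * (ε / 16) * N := by
    have h8 : (m / W₀ - ε) * N = m * (N / W₀) - ε * N := by ring
    rw [h8]
    nlinarith
  have h9 : t * (ε / 16) * ((((Icc 1 N).filter (fun n => n ≡ c [MOD W₀])).card : ℕ) : ℝ) ≤
      t * (ε / 16) * N := mul_le_mul_of_nonneg_left hSN (by positivity)
  calc (m / W₀ - ε) * N * t ≤ ((m - ε / 4) * (N / W₀) - 3 * (ε / 16) * N) * t :=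
        mul_le_mul_of_nonneg_right h7 ht0.le
    _ ≤ ((m - ε / 8) * ((1 - 3 * η) * N / W₀) - 3 * (ε / 16) * N) * t :=
        mul_le_mul_of_nonneg_right (by linarith) ht0.le
    _ ≤ _ := by
        rw [mul_comm]
        linarith

end Pool.Agent.Lib.MP_629a14_nt.Kp.R.Mp
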