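import Pool.Agent.Lib.MP_629a14_nt.Mp.Defs

/-! One pair of classes: from the cells to the integers. -/

set_option autoImplicit false

namespace Pool.Agent.Lib.MP_629a14_nt.Kp.R.Mp

open Finset Filter Topology Pool.Agent.Lib.MP_629a14_nt Pool.Agent.Lib.MP_629a14_nt.Rob
open Pool.Agent.Lib.MP_629a14_nt.Mp (tr Gk RM)

private theorem pair_trap_nonneg {a b : ℝ} (ha : 0 ≤ a) (hb : 0 ≤ b) (x : ℝ) :
    0 ≤ trap a b x := by
  unfold trap
  exact le_min (le_min ha hb) (le_max_of_le_left (le_max_left _ _))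

private theorem pair_cell {K N y i : ℕ} (hK : 1 ≤ K)
    (h1 : (i : ℝ) * (((N : ℝ) + 1) / K) ≤ y)
    (h2 : (y : ℝ) < ((i : ℝ) + 1) * (((N : ℝ) + 1) / K)) : cell K N y = i := by
  have hK' : (0 : ℝ) < K := by exact_mod_cast hK
  unfold cell
  refine Nat.div_eq_of_lt_le ?_ ?_
  · rw [← mul_div_assoc, div_le_iff₀ hK'] at h1
    exact_mod_cast h1
  · rw [← mul_div_assoc, lt_div_iff₀ hK'] at h2
    exact_mod_cast h2

/-- the number of the naturals in an open interval -/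
private theorem pair_card_Ioo {a b : ℝ} (ha : 0 ≤ a) :
    b - a - 1 ≤ ((Ioo ⌊a⌋₊ ⌈b⌉₊).card : ℝ) := by
  rw [Nat.card_Ioo]
  have h1 := Nat.floor_le ha
  have h2 := Nat.le_ceil b
  have h3 : ((⌈b⌉₊ : ℕ) : ℝ) ≤ ((⌈b⌉₊ - ⌊a⌋₊ - 1 : ℕ) : ℝ) + ⌊a⌋₊ + 1 := by
    have : ⌈b⌉₊ ≤ (⌈b⌉₊ - ⌊a⌋₊ - 1) + ⌊a⌋₊ + 1 := by omega
    exact_mod_cast this
  linarith

private theorem pair_sum (K N : ℕ) (al be : ℕ → ℝ) (hal : ∀ i, 0 ≤ al i ∧ al i ≤ 1)
    (hbe : ∀ i, 0 ≤ be i ∧ be i ≤ 1) (k n : ℕ) (x : ℝ) :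
    ∑ i ∈ range (k + 1), (((Ico 1 n).filter
        (fun y => cell K N y = i ∧ cell K N (n - y) = k - i)).card : ℝ) *
        trap (al i) (be (k - i)) x +
      ∑ i ∈ range k, (((Ico 1 n).filter
        (fun y => cell K N y = i ∧ cell K N (n - y) = k - 1 - i)).card : ℝ) *
        trap (al i) (be (k - 1 - i)) x ≤
      ∑ y ∈ Ico 1 n, trap (al (cell K N y)) (be (cell K N (n - y))) x := by
  have e : ∀ (m : ℕ → ℕ) (s : Finset ℕ), ∑ i ∈ s, (((Ico 1 n).filter
        (fun y => cell K N y = i ∧ cell K N (n - y) = m i)).card : ℝ) *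
        trap (al i) (be (m i)) x = ∑ y ∈ Ico 1 n, ∑ i ∈ s,
          if cell K N y = i ∧ cell K N (n - y) = m i then trap (al i) (be (m i)) x else 0 := by
    intro m s
    rw [sum_comm]
    refine sum_congr rfl fun i _ => ?_
    rw [← sum_filter, sum_const, nsmul_eq_mul]
  rw [e, e, ← sum_add_distrib]
  refine sum_le_sum fun y _ => ?_
  set c := cell K N y with hc
  set d := cell K N (n - y) with hd
  have hnn : 0 ≤ trap (al c) (be d) x := pair_trap_nonneg (hal c).1 (hbe d).1 x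
  have e1 : ∑ i ∈ range (k + 1), (if c = i ∧ d = k - i then trap (al i) (be (k - i)) x else 0) =
      if c ≤ k ∧ d = k - c then trap (al c) (be d) x else 0 := by
    split_ifs with h
    · rw [sum_eq_single_of_mem c (by rw [mem_range]; omega)]
      · rw [if_pos ⟨rfl, h.2⟩, ← h.2]
      · intro i _ hi
        rw [if_neg (fun h' => hi h'.1.symm)]
    · refine sum_eq_zero fun i hi => ?_
      rw [if_neg]
      rintro ⟨rfl, h2⟩
      rw [mem_range] at hi
      exact h ⟨by omega, h2⟩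
  have e2 : ∑ i ∈ range k, (if c = i ∧ d = k - 1 - i then trap (al i) (be (k - 1 - i)) x else 0) =
      if c < k ∧ d = k - 1 - c then trap (al c) (be d) x else 0 := by
    split_ifs with h
    · rw [sum_eq_single_of_mem c (by rw [mem_range]; omega)]
      · rw [if_pos ⟨rfl, h.2⟩, ← h.2]
      · intro i _ hi
        rw [if_neg (fun h' => hi h'.1.symm)]
    · refine sum_eq_zero fun i hi => ?_
      rw [if_neg]
      rintro ⟨rfl, h2⟩
      rw [mem_range] at hi
      exact h ⟨hi, h2⟩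
  rw [e1, e2]
  split_ifs with h1 h2 h2
  · omega
  · rw [add_zero]
  · rw [zero_add]
  · rw [add_zero]; exact hnn

/-- With `M = (N + 1) / K` the cell `i` is `[i M, (i + 1) M)`. For `n = (k + φ) M` and `i ≤ k` there are
at least `φ M - 3` of the `y` in `[1, n)` in the cell `i` with `n - y` in the cell `k - i` (those in
`[i M, (i + φ) M]`), and for `i < k` at least `(1 - φ) M - 3` with `n - y` in the cell `k - 1 - i` (those
in `((i + φ) M, (i + 1) M)`). -/
theorem Fp_ge (K : ℕ) (hK : 1 ≤ K) (η : ℝ) (hη : 0 < η) : ∃ N₀ : ℕ, ∀ N : ℕ, N₀ ≤ N →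
    ∀ al be : ℕ → ℝ, (∀ i, 0 ≤ al i ∧ al i ≤ 1) → (∀ i, 0 ≤ be i ∧ be i ≤ 1) →
      ∀ k n : ℕ, k < K → ((k : ℝ) + η) * N ≤ n * K → (n : ℝ) * K ≤ ((k : ℝ) + 1 - η) * N →
        ∀ x : ℝ, η / 2 * Gk K al be k x ≤ Fp K N al be n x := by
  refine ⟨⌈8 * K / η⌉₊ + 1, fun N hN al be hal hbe k n hk h1 h2 x => ?_⟩
  have hK' : (0 : ℝ) < K := by exact_mod_cast hK
  have hN1 : 8 * (K : ℝ) / η + 1 ≤ N := by
    have h3 : ((⌈8 * K / η⌉₊ + 1 : ℕ) : ℝ) ≤ N := by exact_mod_cast hN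
    push_cast at h3
    have h4 := Nat.le_ceil (8 * (K : ℝ) / η)
    linarith
  have hN0 : (1 : ℝ) ≤ N := by
    have : 0 ≤ 8 * (K : ℝ) / η := by positivity
    linarith
  have hη1 : η ≤ 1 / 2 := by
    have h3 : ((k : ℝ) + η) * N ≤ ((k : ℝ) + 1 - η) * N := h1.trans h2
    have h4 := le_of_mul_le_mul_right h3 (by linarith)
    linarith
  have hkK : (k : ℝ) + 1 ≤ K := by exact_mod_cast hk
  set M : ℝ := ((N : ℝ) + 1) / K with hM
  have hMK : M * K = N + 1 := div_mul_cancel₀ _ hK'.ne'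
  have hηM : 8 ≤ η * M := by
    have h3 : 8 * (K : ℝ) ≤ η * N := by
      have h4 : 8 * (K : ℝ) / η ≤ N := by linarith
      rw [div_le_iff₀ hη] at h4
      linarith
    have h5 : 8 * (K : ℝ) ≤ η * M * K := by
      rw [mul_assoc, hMK]
      linarith
    exact le_of_mul_le_mul_right h5 hK'
  have hM0 : 0 < M := by positivity
  -- `n` in terms of `M`
  have hn1 : ((k : ℝ) + η) * M - 1 ≤ n := by
    have h3 : (((k : ℝ) + η) * M - 1) * K ≤ n * K := by
      have h4 : (((k : ℝ) + η) * M - 1) * K = ((k : ℝ) + η) * N + ((k : ℝ) + η) - K := by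
        have : (((k : ℝ) + η) * M - 1) * K = ((k : ℝ) + η) * (M * K) - K := by ring
        rw [this, hMK]
        ring
      rw [h4]
      linarith
    exact le_of_mul_le_mul_right h3 hK'
  have hn2 : (n : ℝ) ≤ ((k : ℝ) + 1 - η) * M := by
    have h3 : (n : ℝ) * K ≤ ((k : ℝ) + 1 - η) * M * K := by
      rw [mul_assoc, hMK]
      refine h2.trans ?_
      have h5 : 0 ≤ (k : ℝ) + 1 - η := by
        have : (0 : ℝ) ≤ k := Nat.cast_nonneg k
        linarith
      nlinarith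
    exact le_of_mul_le_mul_right h3 hK'
  have hk0 : (0 : ℝ) ≤ k := Nat.cast_nonneg k
  have hnN : (n : ℝ) ≤ N := by
    have h3 : (n : ℝ) * K ≤ N * K := by
      refine h2.trans ?_
      rw [mul_comm]
      refine mul_le_mul_of_nonneg_left (by linarith) (by linarith)
    exact le_of_mul_le_mul_right h3 hK'
  have hn0 : (0 : ℝ) < n := by nlinarith
  -- the lower bound for the numbers
  have hlow : η / (2 * K) * n ≤ η * M - 2 := by
    have h3 : η / (2 * K) * n ≤ η * M / 2 := by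
      have h4 : (n : ℝ) ≤ M * K := by rw [hMK]; linarith
      calc η / (2 * K) * n ≤ η / (2 * K) * (M * K) := by gcongr
        _ = η * M / 2 := by field_simp
    linarith
  have c1 : ∀ i ∈ range (k + 1), η / (2 * K) * n ≤ (((Ico 1 n).filter
        (fun y => cell K N y = i ∧ cell K N (n - y) = k - i)).card : ℝ) := by
    intro i hi
    rw [mem_range] at hi
    have hi' : i ≤ k := by omega
    have hi0 : (0 : ℝ) ≤ i := Nat.cast_nonneg i
    have hik : (i : ℝ) ≤ k := by exact_mod_cast hi'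
    have hc := pair_card_Ioo (a := i * M) (b := n - ((k : ℝ) - i) * M) (by positivity)
    have hsub : Ioo ⌊(i : ℝ) * M⌋₊ ⌈(n : ℝ) - ((k : ℝ) - i) * M⌉₊ ⊆ (Ico 1 n).filter
        (fun y => cell K N y = i ∧ cell K N (n - y) = k - i) := by
      intro y hy
      rw [mem_Ioo, Nat.floor_lt (by positivity), Nat.lt_ceil] at hy
      obtain ⟨hy1, hy2⟩ := hy
      have hyn : (y : ℝ) < n := by nlinarith
      have hyn' : y < n := by exact_mod_cast hyn
      have hy0 : (0 : ℝ) < y := lt_of_le_of_lt (by positivity) hy1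
      have hy0' : 0 < y := by exact_mod_cast hy0
      rw [mem_filter, mem_Ico]
      refine ⟨⟨hy0', hyn'⟩, pair_cell hK hy1.le ?_, pair_cell hK ?_ ?_⟩
      · nlinarith
      · rw [Nat.cast_sub hyn'.le, Nat.cast_sub hi']
        linarith
      · rw [Nat.cast_sub hyn'.le, Nat.cast_sub hi']
        nlinarith
    have hc2 : ((Ioo ⌊(i : ℝ) * M⌋₊ ⌈(n : ℝ) - ((k : ℝ) - i) * M⌉₊).card : ℝ) ≤
        (((Ico 1 n).filter (fun y => cell K N y = i ∧ cell K N (n - y) = k - i)).card : ℝ) := by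
      exact_mod_cast card_le_card hsub
    nlinarith
  have c2 : ∀ i ∈ range k, η / (2 * K) * n ≤ (((Ico 1 n).filter
        (fun y => cell K N y = i ∧ cell K N (n - y) = k - 1 - i)).card : ℝ) := by
    intro i hi
    rw [mem_range] at hi
    have hi0 : (0 : ℝ) ≤ i := Nat.cast_nonneg i
    have hik : (i : ℝ) + 1 ≤ k := by exact_mod_cast hi
    have hcast : ((k - 1 - i : ℕ) : ℝ) = (k : ℝ) - 1 - i := by
      have : k - 1 - i + (1 + i) = k := by omega
      have h' : ((k - 1 - i : ℕ) : ℝ) + (1 + i) = k := by exact_mod_cast this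
      linarith
    have ha0 : 0 ≤ (n : ℝ) - ((k : ℝ) - i) * M := by nlinarith
    have hc := pair_card_Ioo (a := n - ((k : ℝ) - i) * M) (b := ((i : ℝ) + 1) * M) ha0
    have hsub : Ioo ⌊(n : ℝ) - ((k : ℝ) - i) * M⌋₊ ⌈((i : ℝ) + 1) * M⌉₊ ⊆ (Ico 1 n).filter
        (fun y => cell K N y = i ∧ cell K N (n - y) = k - 1 - i) := by
      intro y hy
      rw [mem_Ioo, Nat.floor_lt ha0, Nat.lt_ceil] at hy
      obtain ⟨hy1, hy2⟩ := hy
      have hyn : (y : ℝ) < n := by nlinarith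
      have hyn' : y < n := by exact_mod_cast hyn
      have hy0 : (0 : ℝ) < y := lt_of_le_of_lt ha0 hy1
      have hy0' : 0 < y := by exact_mod_cast hy0
      rw [mem_filter, mem_Ico]
      refine ⟨⟨hy0', hyn'⟩, pair_cell hK ?_ hy2, pair_cell hK ?_ ?_⟩
      · nlinarith
      · rw [Nat.cast_sub hyn'.le, hcast]
        nlinarith
      · rw [Nat.cast_sub hyn'.le, hcast]
        nlinarith
    have hc2 : ((Ioo ⌊(n : ℝ) - ((k : ℝ) - i) * M⌋₊ ⌈((i : ℝ) + 1) * M⌉₊).card : ℝ) ≤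
        (((Ico 1 n).filter
          (fun y => cell K N y = i ∧ cell K N (n - y) = k - 1 - i)).card : ℝ) := by
      exact_mod_cast card_le_card hsub
    nlinarith
  have hsum := pair_sum K N al be hal hbe k n x
  unfold Fp
  rw [le_div_iff₀ hn0]
  refine le_trans ?_ hsum
  unfold Gk
  have e0 : η / 2 * (1 / (K : ℝ) * (∑ i ∈ range (k + 1),
      Pool.Agent.Lib.MP_629a14_nt.Mp.tr (al i) (be (k - i)) x +
      ∑ i ∈ range k, Pool.Agent.Lib.MP_629a14_nt.Mp.tr (al i) (be (k - 1 - i)) x)) * n =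
      ∑ i ∈ range (k + 1), η / (2 * K) * n * trap (al i) (be (k - i)) x +
      ∑ i ∈ range k, η / (2 * K) * n * trap (al i) (be (k - 1 - i)) x := by
    rw [← mul_sum, ← mul_sum]
    change η / 2 * (1 / (K : ℝ) * (∑ i ∈ range (k + 1), trap (al i) (be (k - i)) x +
      ∑ i ∈ range k, trap (al i) (be (k - 1 - i)) x)) * n = _
    field_simp
  rw [e0]
  refine add_le_add (sum_le_sum fun i hi => ?_) (sum_le_sum fun i hi => ?_)
  · exact mul_le_mul_of_nonneg_right (c1 i hi) (pair_trap_nonneg (hal _).1 (hbe _).1 x)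
  · exact mul_le_mul_of_nonneg_right (c2 i hi) (pair_trap_nonneg (hal _).1 (hbe _).1 x)

theorem Gk_cont (K : ℕ) (al be : ℕ → ℝ) (k : ℕ) : Continuous (Gk K al be k) := by
  have h : ∀ a b : ℝ, Continuous (fun x => Pool.Agent.Lib.MP_629a14_nt.Mp.tr a b x) :=
    fun a b => by
      unfold Pool.Agent.Lib.MP_629a14_nt.Mp.tr
      fun_prop
  exact continuous_const.mul ((continuous_finsetSum _ fun i _ => h _ _).add
    (continuous_finsetSum _ fun i _ => h _ _))

theorem Fp_cont (K N : ℕ) (al be : ℕ → ℝ) (n : ℕ) : Continuous (Fp K N al be n) := by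
  have h : ∀ a b : ℝ, Continuous (fun x => trap a b x) := fun a b => by
    unfold trap
    fun_prop
  exact (continuous_finsetSum _ fun y _ => h _ _).div_const _

theorem Vp_ge (K : ℕ) (hK : 1 ≤ K) (η : ℝ) (hη : 0 < η) : ∃ N₀ : ℕ, ∀ N : ℕ, N₀ ≤ N →
    ∀ al be : ℕ → ℝ, (∀ i, 0 ≤ al i ∧ al i ≤ 1) → (∀ i, 0 ≤ be i ∧ be i ≤ 1) →
      ∀ k n : ℕ, k < K → ((k : ℝ) + η) * N ≤ n * K → (n : ℝ) * K ≤ ((k : ℝ) + 1 - η) * N →
        ∀ τ : ℝ, 0 < τ → Vg K al be τ k ≤ Vp K N al be (η / 2 * τ) n := by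
  obtain ⟨N₀, h⟩ := Fp_ge K hK η hη
  refine ⟨N₀, fun N hN al be hal hbe k n hk h1 h2 τ hτ => ?_⟩
  have h3 := h N hN al be hal hbe k n hk h1 h2
  unfold Vg Vp
  refine mul_le_mul_of_nonneg_left ?_ (by norm_num)
  refine intervalIntegral.integral_mono_on (by norm_num) ?_ ?_ fun x _ => ?_
  · exact (continuous_const.min ((Gk_cont K al be k).div_const _)).intervalIntegrable _ _
  · exact (continuous_const.min ((Fp_cont K N al be n).div_const _)).intervalIntegrable _ _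
  · refine min_le_min le_rfl ?_
    rw [div_le_div_iff₀ hτ (by positivity)]
    nlinarith [h3 x]

end Pool.Agent.Lib.MP_629a14_nt.Kp.R.Mp
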