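import Pool.Agent.Lib.MP_629a14_nt.Mp.Conc
import Pool.Agent.Lib.MP_629a14_nt.Mp.Lift

/-! The sum over the integers of a class. -/

set_option autoImplicit false

namespace Pool.Agent.Lib.MP_629a14_nt.Kp.R.Mp

open Finset Filter Topology Pool.Agent.Lib.MP_629a14_nt Pool.Agent.Lib.MP_629a14_nt.Rob
open Pool.Agent.Lib.MP_629a14_nt.Mp (tr Gk RM)

/-- The good integers of the cell `k` in the class `c'` modulo `W`. -/
noncomputable def good (W K N : ℕ) (η : ℝ) (c' k : ℕ) : Finset ℕ :=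
  (Icc 1 N).filter (fun n => n ≡ c' [MOD W] ∧ ((k : ℝ) + η) * N ≤ n * K ∧
    (n : ℝ) * K ≤ ((k : ℝ) + 1 - η) * N)

/-- The integers `n ≡ c'` in an interval of length `(1 - 2 η) N / K`. -/
theorem good_card {W K N : ℕ} {η : ℝ} (hW : 1 ≤ W) (hK : 1 ≤ K) (hη : 0 < η) (c' k : ℕ)
    (hk : k < K) : (1 - 2 * η) * N / (K * W) - 2 ≤ ((good W K N η c' k).card : ℝ) := by
  classical
  rcases Nat.eq_zero_or_pos N with hN | hN
  · subst hN
    have : (0 : ℝ) ≤ ((good W K 0 η c' k).card : ℝ) := Nat.cast_nonneg _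
    simp only [Nat.cast_zero, mul_zero, zero_div]
    linarith
  have hWr : (0 : ℝ) < W := by exact_mod_cast hW
  have hKr : (0 : ℝ) < K := by exact_mod_cast hK
  have hNr : (0 : ℝ) < N := by exact_mod_cast hN
  have hk1 : (k : ℝ) + 1 ≤ K := by exact_mod_cast hk
  set A : ℝ := ((k : ℝ) + η) * N / K with hA
  set B : ℝ := ((k : ℝ) + 1 - η) * N / K with hB
  set u : ℝ := (A - c') / W with hu
  set v : ℝ := (B - c') / W with hv
  have hA0 : 0 < A := by rw [hA]; positivity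
  have hmem : ∀ j ∈ Finset.Icc ⌈u⌉ ⌊v⌋, A ≤ (c' : ℝ) + W * j ∧ (c' : ℝ) + W * j ≤ B := by
    intro j hj
    rw [Finset.mem_Icc, Int.ceil_le, Int.le_floor] at hj
    obtain ⟨h1, h2⟩ := hj
    rw [hu, div_le_iff₀ hWr] at h1
    rw [hv, le_div_iff₀ hWr] at h2
    constructor <;> linarith
  have hpos : ∀ j ∈ Finset.Icc ⌈u⌉ ⌊v⌋, 0 ≤ (c' : ℤ) + W * j := by
    intro j hj
    have h1 := (hmem j hj).1
    have h2 : (0 : ℝ) < ((c' : ℤ) + W * j : ℤ) := by
      push_cast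
      linarith
    exact_mod_cast h2.le
  have hcast : ∀ j ∈ Finset.Icc ⌈u⌉ ⌊v⌋, ((((c' : ℤ) + W * j).toNat : ℕ) : ℝ) = (c' : ℝ) + W * j := by
    intro j hj
    have h1 : ((((c' : ℤ) + W * j).toNat : ℕ) : ℤ) = (c' : ℤ) + W * j := Int.toNat_of_nonneg (hpos j hj)
    have h2 : (((((c' : ℤ) + W * j).toNat : ℕ) : ℤ) : ℝ) = (((c' : ℤ) + W * j : ℤ) : ℝ) := by rw [h1]
    push_cast at h2
    exact_mod_cast h2
  have hle : (Finset.Icc ⌈u⌉ ⌊v⌋).card ≤ (good W K N η c' k).card := by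
    refine Finset.card_le_card_of_injOn (fun j => ((c' : ℤ) + W * j).toNat) ?_ ?_
    · intro j hj
      have hj' : j ∈ Finset.Icc ⌈u⌉ ⌊v⌋ := by exact_mod_cast hj
      have hm := hmem j hj'
      have hc := hcast j hj'
      have e1 : A * K = ((k : ℝ) + η) * N := by rw [hA]; field_simp
      have e2 : B * K = ((k : ℝ) + 1 - η) * N := by rw [hB]; field_simp
      simp only [good, Finset.coe_filter, Set.mem_setOf_eq, Finset.mem_Icc]
      refine ⟨⟨?_, ?_⟩, ?_, ?_, ?_⟩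
      · have h1 : (0 : ℝ) < ((((c' : ℤ) + W * j).toNat : ℕ) : ℝ) := by rw [hc]; linarith [hm.1]
        exact_mod_cast h1
      · have h1 : ((((c' : ℤ) + W * j).toNat : ℕ) : ℝ) ≤ N := by
          rw [hc]
          refine hm.2.trans ?_
          rw [hB, div_le_iff₀ hKr]
          nlinarith
        exact_mod_cast h1
      · have h1 : ((((c' : ℤ) + W * j).toNat : ℕ) : ℤ) = (c' : ℤ) + W * j :=
          Int.toNat_of_nonneg (hpos j hj')
        rw [← Int.natCast_modEq_iff, h1]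
        exact (Int.modEq_iff_dvd.2 ⟨-j, by ring⟩)
      · rw [hc]
        nlinarith [mul_le_mul_of_nonneg_right hm.1 hKr.le]
      · rw [hc]
        nlinarith [mul_le_mul_of_nonneg_right hm.2 hKr.le]
    · intro i hi j hj hij
      have hi' : i ∈ Finset.Icc ⌈u⌉ ⌊v⌋ := by exact_mod_cast hi
      have hj' : j ∈ Finset.Icc ⌈u⌉ ⌊v⌋ := by exact_mod_cast hj
      have h1 : (c' : ℝ) + W * i = (c' : ℝ) + W * j := by
        rw [← hcast i hi', ← hcast j hj']
        exact congrArg _ hij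
      have h2 : (W : ℝ) * i = W * j := by linarith
      have h3 := mul_left_cancel₀ hWr.ne' h2
      exact_mod_cast h3
  have hcard : v - u - 1 ≤ ((Finset.Icc ⌈u⌉ ⌊v⌋).card : ℝ) := by
    rw [Int.card_Icc]
    have h1 : ((⌊v⌋ + 1 - ⌈u⌉ : ℤ) : ℝ) ≤ (((⌊v⌋ + 1 - ⌈u⌉).toNat : ℕ) : ℝ) := by
      exact_mod_cast Int.self_le_toNat _
    refine le_trans ?_ h1
    push_cast
    have h2 := Int.lt_floor_add_one v
    have h3 := Int.ceil_lt_add_one u
    linarith
  have hvu : v - u = (1 - 2 * η) * N / (K * W) := by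
    rw [hv, hu, hB, hA]
    field_simp
    ring
  have h4 : ((Finset.Icc ⌈u⌉ ⌊v⌋).card : ℝ) ≤ ((good W K N η c' k).card : ℝ) := by exact_mod_cast hle
  linarith

/-- The sets `good W K N η c' k`, `c' < W` with `c' ≡ c [MOD W₀]`, `k < K`, are pairwise disjoint
subsets of the class `c` modulo `W₀`. -/
theorem good_sum {W₀ W K N : ℕ} {η : ℝ} (hW : 1 ≤ W) (hd : W₀ ∣ W) (hK : 1 ≤ K) (hN : 1 ≤ N)
    (hη : 0 < η) (c : ℕ) (h : ℕ → ℝ) (hh : ∀ n, 0 ≤ h n) :
    ∑ c' ∈ (range W).filter (fun c' => c' ≡ c [MOD W₀]), ∑ k ∈ range K,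
      ∑ n ∈ good W K N η c' k, h n ≤ ∑ n ∈ (Icc 1 N).filter (fun n => n ≡ c [MOD W₀]), h n := by
  classical
  rw [← Finset.sum_product', ← Finset.sum_biUnion]
  · refine Finset.sum_le_sum_of_subset_of_nonneg ?_ fun n _ _ => hh n
    intro n hn
    rw [Finset.mem_biUnion] at hn
    obtain ⟨p, hp, hn⟩ := hn
    rw [Finset.mem_product, Finset.mem_filter] at hp
    simp only [good, Finset.mem_filter] at hn ⊢
    exact ⟨hn.1, (hn.2.1.of_dvd hd).trans hp.1.2⟩
  · intro p hp q hq hpq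
    rw [Function.onFun, Finset.disjoint_left]
    intro n hn hn'
    apply hpq
    simp only [good, Finset.mem_filter] at hn hn'
    have hp' := Finset.mem_product.1 (Finset.mem_coe.1 hp)
    have hq' := Finset.mem_product.1 (Finset.mem_coe.1 hq)
    rw [Finset.mem_filter, Finset.mem_range, Finset.mem_range] at hp' hq'
    have h1 : p.1 = q.1 := by
      have h2 : p.1 ≡ q.1 [MOD W] := hn.2.1.symm.trans hn'.2.1
      exact Nat.ModEq.eq_of_lt_of_lt h2 hp'.1.1 hq'.1.1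
    have hNr : (0 : ℝ) < N := by exact_mod_cast hN
    have key : ∀ a b : ℕ, ((a : ℝ) + η) * N ≤ n * K → (n : ℝ) * K ≤ ((b : ℝ) + 1 - η) * N →
        a ≤ b := by
      intro a b ha hb
      have h3 : ((a : ℝ) + η) * N ≤ ((b : ℝ) + 1 - η) * N := ha.trans hb
      have h4 := le_of_mul_le_mul_right h3 hNr
      have h5 : (a : ℝ) < b + 1 := by linarith
      have h6 : a < b + 1 := by exact_mod_cast h5
      omega
    have h2 : p.2 = q.2 :=
      le_antisymm (key _ _ hn.2.2.1 hn'.2.2.2) (key _ _ hn'.2.2.1 hn.2.2.2)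
    exact Prod.ext h1 h2

/-- The number of the classes modulo `W` above a class modulo `W₀`. -/
theorem class_count {W₀ W : ℕ} (hW₀ : 1 ≤ W₀) (hd : W₀ ∣ W) (c : ℕ) :
    ((((range W).filter (fun c' => c' ≡ c [MOD W₀])).card : ℕ) : ℝ) * W₀ = W := by
  obtain ⟨k, rfl⟩ := hd
  have h : ((range (W₀ * k)).filter (fun c' => c' ≡ c [MOD W₀])).card = k := by
    have h1 := Nat.count_modEq_card (W₀ * k) (show 0 < W₀ by omega) c
    rw [Nat.count_eq_card_filter_range] at h1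
    have h2 : W₀ * k / W₀ = k := Nat.mul_div_cancel_left k (by omega)
    have h3 : W₀ * k % W₀ = 0 := Nat.mul_mod_right W₀ k
    rw [h2, h3] at h1
    simpa using h1
  rw [h]
  push_cast
  ring

/-- The pairs of classes above `r₀` and `c - r₀`. -/
theorem adm_pair {W₀ W n c r₀ r : ℕ} (hW₀ : 1 ≤ W₀) (hW : 1 ≤ W) (hd : W₀ ∣ W)
    (hn : n ≡ c [MOD W₀]) (hr₀ : r₀ < W₀) (hr : r ∈ (adm W n).filter (fun r => r % W₀ = r₀)) :
    r < W ∧ r.Coprime W ∧ r % W₀ = r₀ ∧ (n + W - r) % W < W ∧ ((n + W - r) % W).Coprime W ∧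
      ((n + W - r) % W) % W₀ = (c + W₀ - r₀) % W₀ := by
  rw [mem_filter] at hr
  obtain ⟨hr, hrr⟩ := hr
  rw [adm, mem_filter, mem_range] at hr
  obtain ⟨h1, h2, h3⟩ := hr
  refine ⟨h1, h2, hrr, Nat.mod_lt _ (by omega), ?_, ?_⟩
  · have e : Nat.gcd ((n + W - r) % W) W = Nat.gcd (n + W - r) W := by
      rw [← Nat.gcd_rec, Nat.gcd_comm]
    rw [Nat.Coprime, e]
    exact h3
  · rw [Nat.mod_mod_of_dvd _ hd]
    have hrm : r ≡ r₀ [MOD W₀] := by
      rw [Nat.ModEq, hrr, Nat.mod_eq_of_lt hr₀]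
    have e1 : (n + W - r) + r ≡ (c + W₀ - r₀) + r₀ [MOD W₀] := by
      have a1 : n + W - r + r = n + W := by omega
      have a2 : c + W₀ - r₀ + r₀ = c + W₀ := by omega
      rw [a1, a2]
      have a3 : W ≡ W₀ [MOD W₀] := by
        rw [Nat.ModEq, Nat.mod_self, Nat.mod_eq_zero_of_dvd hd]
      exact hn.add a3
    exact Nat.ModEq.add_right_cancel hrm e1

private theorem sg_gk_nonneg {K : ℕ} {al be : ℕ → ℝ} (hal : ∀ k, 0 ≤ al k ∧ al k ≤ 1)
    (hbe : ∀ k, 0 ≤ be k ∧ be k ≤ 1) (k : ℕ) (x : ℝ) : 0 ≤ Gk K al be k x := by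
  have h1 : ∀ i j, 0 ≤ trap (al i) (be j) x := fun i j =>
    (trap_mem (x := x) (hal i).1 (hal i).2 (hbe j).1 (hbe j).2).1
  unfold Gk
  refine mul_nonneg (by positivity) (add_nonneg ?_ ?_)
  · exact sum_nonneg fun i _ => h1 _ _
  · exact sum_nonneg fun i _ => h1 _ _

private theorem sg_vg_nonneg {K : ℕ} {al be : ℕ → ℝ} (hal : ∀ k, 0 ≤ al k ∧ al k ≤ 1)
    (hbe : ∀ k, 0 ≤ be k ∧ be k ≤ 1) {τ : ℝ} (hτ : 0 < τ) (k : ℕ) : 0 ≤ Vg K al be τ k := by
  unfold Vg
  refine mul_nonneg zero_le_two ?_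
  refine intervalIntegral.integral_nonneg (by norm_num) fun x _ => ?_
  exact le_min zero_le_one (div_nonneg (sg_gk_nonneg hal hbe k x) hτ.le)

private theorem sg_mod {W n c' r : ℕ} (h : n ≡ c' [MOD W]) (hr : r < W) :
    (n + W - r) ≡ (c' + W - r) [MOD W] := by
  have h2 : (n + W - r) + r ≡ (c' + W - r) + r [MOD W] := by
    have e1 : (n + W - r) + r = n + W := by omega
    have e2 : (c' + W - r) + r = c' + W := by omega
    rw [e1, e2]
    exact Nat.ModEq.add_right W h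
  exact Nat.ModEq.add_right_cancel' r h2

private theorem sg_adm {W n c' : ℕ} (h : n ≡ c' [MOD W]) : adm W n = adm W c' := by
  unfold adm
  refine filter_congr fun r hr => ?_
  have h1 := sg_mod h (mem_range.1 hr)
  have h2 : (n + W - r).Coprime W ↔ (c' + W - r).Coprime W := by
    unfold Nat.Coprime
    rw [h1.gcd_eq]
  rw [h2]

theorem sum_ge (W₀ W K : ℕ) (hW₀ : 1 ≤ W₀) (h2 : 2 ∣ W₀) (hW : 1 ≤ W) (hd : W₀ ∣ W) (hK : 1 ≤ K)
    (c : ℕ) (hc : 2 ∣ c) (r₀ : ℕ) (hr₀ : r₀ ∈ adm W₀ c) (η : ℝ) (hη : 0 < η) (hη1 : η ≤ 1 / 4) :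
    ∃ N₀ : ℕ, ∀ N : ℕ, N₀ ≤ N → ∀ a b : ℕ → ℕ → ℝ, (∀ k r, 0 ≤ a k r ∧ a k r ≤ 1) →
      (∀ k r, 0 ≤ b k r ∧ b k r ≤ 1) → ∀ τ μ : ℝ, 0 < τ → 0 ≤ μ →
      (∀ r s : ℕ, r < W → r.Coprime W → r % W₀ = r₀ → s < W → s.Coprime W →
        s % W₀ = (c + W₀ - r₀) % W₀ →
        μ * K ≤ ∑ k ∈ range K, Vg K (fun k => a k r) (fun k => b k s) τ k) →
      η / 2 * τ / (adm W₀ c).card * μ * ((1 - 3 * η) * N / W₀) ≤
        ∑ n ∈ (Icc 1 N).filter (fun n => n ≡ c [MOD W₀]),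
          RT W K N a b (η / 2 * τ / (adm W₀ c).card) n := by
  classical
  have hWr : (0 : ℝ) < W := by exact_mod_cast hW
  have hW₀r : (0 : ℝ) < W₀ := by exact_mod_cast hW₀
  have hKr : (0 : ℝ) < K := by exact_mod_cast hK
  obtain ⟨N₁, hV⟩ := Vp_ge K hK η hη
  obtain ⟨N₂, hN₂⟩ := exists_nat_ge (2 * K * W / η)
  refine ⟨max (max N₁ N₂) 1, fun N hN a b ha hb τ μ hτ hμ H => ?_⟩
  have hN1 : N₁ ≤ N := (le_max_left _ _).trans ((le_max_left _ _).trans hN)
  have hN2 : (2 * K * W / η : ℝ) ≤ N :=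
    hN₂.trans (by exact_mod_cast (le_max_right _ _).trans ((le_max_left _ _).trans hN))
  have hN3 : 1 ≤ N := (le_max_right _ _).trans hN
  have hN4 : (2 * K * W : ℝ) ≤ η * N := by
    rw [div_le_iff₀ hη] at hN2
    linarith
  have hD : 0 < (adm W₀ c).card := card_pos.2 ⟨r₀, hr₀⟩
  have hDr : (0 : ℝ) < (adm W₀ c).card := by exact_mod_cast hD
  have hr₀W : r₀ < W₀ := (adm_mem1 hW₀ hr₀).1.1
  obtain ⟨t, ht⟩ : ∃ t : ℝ, t = η / 2 * τ / (adm W₀ c).card := ⟨_, rfl⟩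
  rw [← ht]
  have ht0 : 0 < t := by rw [ht]; positivity
  have ht1 : 1 / ((adm W₀ c).card : ℝ) * (η / 2 * τ) = t := by rw [ht]; ring
  obtain ⟨X, hX⟩ : ∃ X : ℝ, X = (1 - 2 * η) * N / (K * W) - 2 := ⟨_, rfl⟩
  have hXv : X * (K * W) = (1 - 2 * η) * N - 2 * (K * W) := by
    rw [hX]
    field_simp
  have hX0 : 0 ≤ X := by
    have h3 : 0 ≤ X * (K * W) := by
      rw [hXv]
      have h4 : (0 : ℝ) ≤ N := Nat.cast_nonneg N
      nlinarith
    by_contra h4
    have h5 : X * (K * W) < 0 := mul_neg_of_neg_of_pos (not_le.1 h4) (by positivity)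
    linarith
  have hRT0 : ∀ n, 0 ≤ RT W K N a b t n := fun n => (rt_mem ha hb ht0.le).1
  refine le_trans ?_ (good_sum hW hd hK hN3 hη c (RT W K N a b t) hRT0)
  -- one class
  have hcls : ∀ c' ∈ (range W).filter (fun c' => c' ≡ c [MOD W₀]), X * t * (μ * K) ≤
      ∑ k ∈ range K, ∑ n ∈ good W K N η c' k, RT W K N a b t n := by
    intro c' hc'
    rw [mem_filter] at hc'
    have hc'2 : 2 ∣ c' := (hc'.2.of_dvd h2).dvd_iff (dvd_refl 2) |>.2 hc
    obtain ⟨S, hS⟩ : ∃ S : Finset ℕ, S = (adm W c').filter (fun r => r % W₀ = r₀) := ⟨_, rfl⟩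
    have hlift := lift_card hW₀ h2 hc hW hd hc'.2 hr₀
    rw [← hS] at hlift
    have hadm : 0 < (adm W c').card := adm_card_pos hW (h2.trans hd) hc'2
    have hadmr : (0 : ℝ) < (adm W c').card := by exact_mod_cast hadm
    have hS0 : 0 < S.card := by
      rcases Nat.eq_zero_or_pos S.card with h3 | h3
      · rw [h3, Nat.cast_zero, mul_zero] at hlift
        linarith
      · exact h3
    have hSr : (0 : ℝ) < S.card := by exact_mod_cast hS0
    obtain ⟨V, hVdef⟩ : ∃ V : ℕ → ℝ, V = fun k => (∑ r ∈ S, Vg K (fun k => a k r)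
      (fun k => b k ((c' + W - r) % W)) τ k) / S.card := ⟨_, rfl⟩
    have hV0 : ∀ k, 0 ≤ V k := by
      intro k
      rw [hVdef]
      exact div_nonneg (sum_nonneg fun r _ => sg_vg_nonneg (fun k => ha k r) (fun k => hb k _) hτ k)
        (Nat.cast_nonneg _)
    have hpt : ∀ k ∈ range K, ∀ n ∈ good W K N η c' k, t * V k ≤ RT W K N a b t n := by
      intro k hk n hn
      unfold good at hn
      rw [mem_filter] at hn
      obtain ⟨-, hnc, hn1, hn2⟩ := hn
      have hadm2 := sg_adm hnc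
      have h3 := rt_ge (K := K) (N := N) ha hb S (by rw [hS, hadm2]; exact filter_subset _ _) hS0
        (w := 1 / ((adm W₀ c).card : ℝ)) (τ := η / 2 * τ) (n := n) (W := W) (by positivity)
        (by
          rw [hadm2, ← hlift]
          field_simp) (by positivity)
      rw [ht1] at h3
      refine le_trans (mul_le_mul_of_nonneg_left ?_ ht0.le) h3
      rw [hVdef]
      refine div_le_div_of_nonneg_right (sum_le_sum fun r hr => ?_) (Nat.cast_nonneg _)
      have hrW : r < W := by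
        rw [hS, mem_filter] at hr
        exact (adm_mem1 hW hr.1).1.1
      have h4 : (n + W - r) % W = (c' + W - r) % W := sg_mod hnc hrW
      rw [h4]
      exact hV N hN1 _ _ (fun k => ha k r) (fun k => hb k _) k n (mem_range.1 hk) hn1 hn2 τ hτ
    have hsumV : μ * K ≤ ∑ k ∈ range K, V k := by
      rw [hVdef]
      simp only
      rw [← sum_div, sum_comm, le_div_iff₀ hSr]
      calc μ * K * S.card = ∑ r ∈ S, μ * K := by rw [sum_const, nsmul_eq_mul]; ring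
        _ ≤ _ := by
          refine sum_le_sum fun r hr => ?_
          rw [hS] at hr
          obtain ⟨g1, g2, g3, g4, g5, g6⟩ := adm_pair hW₀ hW hd hc'.2 hr₀W hr
          exact H r _ g1 g2 g3 g4 g5 g6
    calc X * t * (μ * K) ≤ X * t * ∑ k ∈ range K, V k :=
          mul_le_mul_of_nonneg_left hsumV (by positivity)
      _ = ∑ k ∈ range K, X * (t * V k) := by
          rw [mul_sum]
          exact sum_congr rfl fun k _ => by ring
      _ ≤ _ := by
          refine sum_le_sum fun k hk => ?_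
          calc X * (t * V k) ≤ ((good W K N η c' k).card : ℝ) * (t * V k) := by
                refine mul_le_mul_of_nonneg_right ?_ (mul_nonneg ht0.le (hV0 k))
                rw [hX]
                exact good_card hW hK hη c' k (mem_range.1 hk)
            _ = ∑ n ∈ good W K N η c' k, t * V k := by rw [sum_const, nsmul_eq_mul]
            _ ≤ _ := sum_le_sum fun n hn => hpt k hk n hn
  refine le_trans ?_ (sum_le_sum hcls)
  rw [sum_const, nsmul_eq_mul]
  have hcc := class_count (W := W) hW₀ hd c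
  obtain ⟨cc, hccd⟩ : ∃ cc : ℝ, cc =
    ((((range W).filter (fun c' => c' ≡ c [MOD W₀])).card : ℕ) : ℝ) := ⟨_, rfl⟩
  rw [← hccd] at hcc ⊢
  have hcc2 : cc = W / W₀ := by
    rw [eq_div_iff hW₀r.ne']
    exact hcc
  rw [hcc2]
  have h3 : (W : ℝ) / W₀ * (X * t * (μ * K)) = t * μ * ((X * (K * W)) / W₀) := by ring
  rw [h3, hXv]
  have h4 : (1 - 3 * η) * (N : ℝ) / W₀ ≤ ((1 - 2 * η) * N - 2 * (K * W)) / W₀ := by
    refine div_le_div_of_nonneg_right ?_ hW₀r.le
    nlinarith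
  exact mul_le_mul_of_nonneg_left h4 (by positivity)

end Pool.Agent.Lib.MP_629a14_nt.Kp.R.Mp
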